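import Pool.Agent.Helper81.UR.Res
import Pool.Agent.Helper92.RE.Final

/-!
# PROJECT UR (MP_c578c8_lc): regular expressions
-/

namespace Pool.Agent.Helper53.UR

open Pool.Agent.Helper65.LinSpace Pool.Agent.Helper78.Mpc
open Pool.Agent.Helper1.TE (USPACE)
open Pool.Agent.Helper65.BR (BM)
open Pool.Agent.Helper81.Gen4 (Q)
open Pool.Agent.Helper31.Gen5 (Hard)
open Pool.Agent.Helper81.RP (Ins)
open Pool.Agent.Helper92.KR (Coded)
open Pool.Agent.Helper92.RE (enc Universal NonUniversal LD Loc half_of_hard finite_of_hard)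
open Pool.Agent.Helper81.UR (FnuOK WithinP prg_within prg_sound)

/-- The reduction of a language in unambiguous linear space to the universality of regular
expressions. -/
def RedOK : Prop := ∀ L : Set (List Bool), L ∈ USPACE (fun n => (n : ℝ)) →
  ∃ f : List Bool → RegularExpression Bool, Loc (fun w => enc (f w)) ∧
    (∀ w : List Bool, w.length ≤ (enc (f w)).length) ∧ ∀ w, (f w).matches' = ⊤ ↔ w ∉ L

/-- Programs on the words `F w`. -/
theorem coded_prgF (h : FnuOK) {D : LD} {F : List Bool → List Bool} (hF : D.Is F) {b₀ : ℕ}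
    (hlen : ∀ w, (F w).length ≤ b₀ * (w.length + 1)) (hle : ∀ w, w.length ≤ (F w).length)
    (P : List Ins) (C : ℝ) :
    Coded accU NFU (fun w y => ∃ t, Pool.Agent.Helper81.RP.AcceptsAt P (F w) y t)
      (fun w y => WithinP P C (F w) y) := by
  obtain ⟨C', hC'⟩ := prg_within hF hlen hle P C
  obtain ⟨e, n₀, he⟩ := h (Pool.Agent.Helper81.IC.mach D P) C'
  refine ⟨e, n₀, fun w y hw => ⟨fun T hT hne => ?_, fun hw' => ?_⟩⟩
  · exact prg_sound hF P ((he w y hw).1 T hT hne)
  · exact (he w y hw).2 (hC' w y hw')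

/-- **The theorem**, for programs, on the words `w` and on the regular expressions. -/
theorem regU (hub : HubOK) (h : FnuOK) (hR : RedOK) (c : ℕ) (hc : 0 < c) :
    ∃ (L : Set (List Bool)) (f : List Bool → RegularExpression Bool) (b : ℕ),
      L ∈ USPACE (fun n => (n : ℝ)) ∧ Lᶜ ∈ USPACE (fun n => (n : ℝ)) ∧
      LinComp (fun w => enc (f w)) ∧
      (∀ w, w.length ≤ (enc (f w)).length ∧ (enc (f w)).length ≤ b * (w.length + 1)) ∧
      (∀ w, (f w).matches' = ⊤ ↔ w ∉ L) ∧
      (∃ c' : ℝ, ∀ n : ℕ, |({w : List Bool | w.length = n ∧ w ∈ L}.ncard : ℝ) - 2 ^ n / 2| ≤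
        c' * 2 ^ ((n : ℝ) / 2)) ∧
      (∀ (P : List Ins) (C : ℝ),
        Hard L c (fun w α => ∃ t, Pool.Agent.Helper81.RP.AcceptsAt P w α t) (WithinP P C) ∧
        Hard L c (fun w α => Q (c * w.length) fun v =>
            ∃ t, Pool.Agent.Helper81.RP.AcceptsAt P w (α ++ v) t)
          (fun w α => Q (c * w.length) fun v => WithinP P C w (α ++ v))) ∧
      (∀ (P : List Ins) (C : ℝ),
        Hard L c (fun w α => ∃ t, Pool.Agent.Helper81.RP.AcceptsAt P (enc (f w)) α t)
          (fun w α => WithinP P C (enc (f w)) α) ∧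
        Hard L c (fun w α => Q (c * w.length) fun v =>
            ∃ t, Pool.Agent.Helper81.RP.AcceptsAt P (enc (f w)) (α ++ v) t)
          (fun w α => Q (c * w.length) fun v => WithinP P C (enc (f w)) (α ++ v))) ∧
      ∀ U : Set (List Bool), U = Universal ∨ U = NonUniversal → ∀ (P : List Ins) (C : ℝ),
        (∀ x, (∃ t, Pool.Agent.Helper81.RP.AcceptsAt P x [] t) → x ∈ U) →
        {w | WithinP P C (enc (f w)) []}.Finite := by
  obtain ⟨L, h1, h2, h3⟩ := hub c hc
  obtain ⟨f, hloc, hle, hf⟩ := hR L h1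
  obtain ⟨D, hD, b, hlen⟩ := hloc.exists_ld
  have hP := fun (P : List Ins) (C : ℝ) => h3 _ _ (coded_prgF h hD hlen hle P C)
  refine ⟨L, f, b, h1, h2, hloc.linComp, fun w => ⟨hle w, hlen w⟩, hf, ?_,
    fun P C => h3 _ _ (Pool.Agent.Helper81.UR.coded_prg h P C), hP, fun U hU P C hA =>
      finite_of_hard (hP P C).1 hf hU fun w hw => hA _ hw⟩
  refine half_of_hard (c := c) ((hP [] 0).1.mono ?_ ?_)
  · rintro w α ⟨t, ht⟩
    have h1 : (none : Option Ins) = some .accept := ht
    exact absurd h1 (by simp)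
  · exact fun w α h => h.elim

end Pool.Agent.Helper53.UR
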