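import Pool.Agent.Helper53.UR.Hub
import Pool.Agent.Helper31.MHS.Two

/-!
# PROJECT UR (MP_c578c8_lc): packet HUB
-/

namespace Pool.Agent.Helper53.UR

open Pool.Agent.Helper65.LinSpace Pool.Agent.Helper78.Mpc
open Pool.Agent.Helper1.TE (USPACE)
open Pool.Agent.Helper81.Gen4 (Q)
open Pool.Agent.Helper31.Gen5 (Hard)
open Pool.Agent.Helper31.MHS (q_take)
open Pool.Agent.Helper92.KR (Coded par Coded.even Coded.odd)

/-- The questions of `par accU c`. -/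
def pmU (c : ℕ) (z : Qn) : Qn :=
  (z.1 / 2, z.2.1, ifz (z.1 % 2) z.2.2.1 (Pool.Agent.Helper31.MHS.drp (3 * c) z.2.1 z.2.2.1),
    z.2.2.2)

theorem ls_pmU (c : ℕ) : LS (pmU c) := by
  unfold pmU
  have h1 : LS (fun z : Qn => ifz (z.1 % 2) z.2.2.1
      (Pool.Agent.Helper31.MHS.drp (3 * c) z.2.1 z.2.2.1)) :=
    LS.ifz (by fun_prop) (by fun_prop)
      (LS.comp (g := fun z : ℕ × ℕ => Pool.Agent.Helper31.MHS.drp (3 * c) z.1 z.2)
        (f := fun z : ℕ × ℕ × ℕ × ℕ => (z.2.1, z.2.2.1))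
        (Pool.Agent.Helper31.MHS.ls_drp (3 * c)) (by fun_prop))
  fun_prop

theorem gHUB : GoalHUB := by
  intro hQ hN hO c hc
  obtain ⟨F, h1, h2⟩ := hQ (par accU c) NFU hN c c hc
  have h3 : Pool.Agent.Helper31.OL.OL (accPm (pmU c)) F := h1
  obtain ⟨h4, h5⟩ := hO (pmU c) (ls_pmU c) F h3
  refine ⟨{w | F (num w) ≠ 0}, h4, h5, fun Acc Good hC => ⟨?_, h2 _ _ (hC.even c)⟩⟩
  exact (h2 _ _ (hC.odd c)).mono (fun w α h => (q_take c w α fun y => Acc w y).1 h)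
    (fun w α h => (q_take c w α fun y => Good w y).2 h)

end Pool.Agent.Helper53.UR
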