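import Pool.Agent.Helper53.UR.Par
import Pool.Agent.Helper31.OL.Defs
import Pool.Agent.Helper31.Gen5.Defs
import Pool.Agent.Helper92.KR.Hub
import Pool.Agent.Helper81.UR.Prg

/-!
# PROJECT UR (MP_c578c8_lc): goals, part D (assembly)
-/

namespace Pool.Agent.Helper53.UR

open Pool.Agent.Helper65.LinSpace Pool.Agent.Helper78.Mpc
open Pool.Agent.Helper1.TE (USPACE)
open Pool.Agent.Helper65.BR (BM)
open Pool.Agent.Helper81.Gen4 (Q)
open Pool.Agent.Helper31.Gen5 (Hard)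
open Pool.Agent.Helper31.OL (Lp OL)
open Pool.Agent.Helper92.KR (Coded par)

/-- The answer to the question `pm z`. -/
def accPm (pm : Qn → Qn) (z : Qn) : ℕ := accU (pm z).1 (pm z).2.1 (pm z).2.2.1 (pm z).2.2.2

/-- The machine of a loop with questions; for `flip = 0` it accepts if the result is not `0`, otherwise if
the result is `0`. -/
def umU (L : Lp Qn ℕ ℕ) (pm : Qn → Qn) (flip : ℕ) : UM L.B where
  I := L.I
  d o b := L.d (o, b)
  h := L.h
  out o := ifz flip (L.o o) (ifz (L.o o) 1 0)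
  N o := (pm (L.q o)).N
  q o := (pm (L.q o)).q
  b o := (pm (L.q o)).b
  c o := (pm (L.q o)).c
  W o := (pm (L.q o)).W
  t o := (pm (L.q o)).t
  ts o := (pm (L.q o)).s

/-- OLM. The machine `M = umU L pm flip`: `M.Ok` by ParOK and the second part of ETB; `M.Ls` by LSParOK, TLS
and the fields of `Lp`, by composition. `bit o = bit (accPm pm) (L.q o)` (`lt01 0 (lt01 0 x) = lt01 0 x`), so
`M.orun x i = L.st (accPm pm) x i` (`Function.iterate_succ_apply'`). By `Comp` there is a first time `t` with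
`h ≠ 0`; for all `j` with `h = 0` before `j` we have `j ≤ t`, so the entries are at most `L.C x`; `M.Lang`
is the set of the `w` with `out ≠ 0` at the time `t` (which is unique). `flip = 0` gives the language,
`flip = 1` its complement. -/
def GoalOLM : Prop := GenOK → (∀ z : Qn, z.W = 2 ^ Pool.Agent.Helper53.CTG.Et z.N z.q z.b z.c) →
  ParOK → LSParOK → LS (fun x : Qn × ℕ × ℕ × ℕ × ℕ × ℕ =>
    x.1.t x.2.1 x.2.2.1 x.2.2.2.1 x.2.2.2.2.1 x.2.2.2.2.2) →
  ∀ pm : Qn → Qn, LS pm → ∀ F : ℕ → ℕ, OL (accPm pm) F →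
    {w | F (num w) ≠ 0} ∈ USPACE (fun n => (n : ℝ)) ∧
    {w | F (num w) ≠ 0}ᶜ ∈ USPACE (fun n => (n : ℝ))

/-- The theorem on hard languages for loops with an arbitrary oracle (helper31). -/
def QHardOL : Prop := ∀ (acc : ℕ → ℕ → ℕ → ℕ → ℕ) (N : ℕ → ℕ), LS N → ∀ c k : ℕ, 0 < k →
  ∃ F : ℕ → ℕ, OL (fun z : ℕ × ℕ × ℕ × ℕ => acc z.1 z.2.1 z.2.2.1 z.2.2.2) F ∧
    ∀ Acc Good : List Bool → List Bool → Prop, Coded acc N Acc Good →
      Hard {w | F (num w) ≠ 0} k (fun w α => Q (c * w.length) fun v => Acc w (α ++ v))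
        (fun w α => Q (c * w.length) fun v => Good w (α ++ v))

/-- The conclusion of HUB. -/
def HubOK : Prop := ∀ c : ℕ, 0 < c → ∃ L : Set (List Bool), L ∈ USPACE (fun n => (n : ℝ)) ∧
  Lᶜ ∈ USPACE (fun n => (n : ℝ)) ∧ ∀ Acc Good : List Bool → List Bool → Prop,
    Coded accU NFU Acc Good →
      Hard L c Acc Good ∧ Hard L c (fun w α => Q (c * w.length) fun v => Acc w (α ++ v))
        (fun w α => Q (c * w.length) fun v => Good w (α ++ v))

/-- HUB. As `all_hard` in `Pool/Agent/Helper65/BR/Hub.lean`: `QHardOL` with `par accU c` (which is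
`accPm pm` with `pm z = (z.1 / 2, z.2.1, ifz (z.1 % 2) z.2.2.1 (drp (3 * c) z.2.1 z.2.2.1), z.2.2.2)`, `LS` as in
`LS.par`), `Coded.even`, `Coded.odd`, `q_take`. -/
def GoalHUB : Prop := QHardOL → LS NFU → (∀ pm : Qn → Qn, LS pm → ∀ F : ℕ → ℕ, OL (accPm pm) F →
    {w | F (num w) ≠ 0} ∈ USPACE (fun n => (n : ℝ)) ∧
    {w | F (num w) ≠ 0}ᶜ ∈ USPACE (fun n => (n : ℝ))) → HubOK

/-- **The theorem.** -/
def MainU : Prop := ∀ c : ℕ, 0 < c → ∃ L : Set (List Bool), L ∈ USPACE (fun n => (n : ℝ)) ∧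
  Lᶜ ∈ USPACE (fun n => (n : ℝ)) ∧
  (∀ (A : BM) (C : ℝ), Hard L c (fun w α => ∃ p r, A.AcceptsAt w α p r) (WithinU A C) ∧
    Hard L c (fun w α => Q (c * w.length) fun v => ∃ p r, A.AcceptsAt w (α ++ v) p r)
      (fun w α => Q (c * w.length) fun v => WithinU A C w (α ++ v))) ∧
  ∀ (P : List Pool.Agent.Helper81.RP.Ins) (C : ℝ),
    Hard L c (fun w α => ∃ t, Pool.Agent.Helper81.RP.AcceptsAt P w α t)
      (Pool.Agent.Helper81.UR.WithinP P C) ∧
    Hard L c (fun w α => Q (c * w.length) fun v =>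
        ∃ t, Pool.Agent.Helper81.RP.AcceptsAt P w (α ++ v) t)
      (fun w α => Q (c * w.length) fun v => Pool.Agent.Helper81.UR.WithinP P C w (α ++ v))

/-- RES. For machines with blocks FNU gives `Coded`; for programs FNU for the machine `mach D P` with
`prg_sound`, `prg_within` (`Pool/Agent/Helper81/UR/Prg.lean`, `D = idD`). -/
def GoalRES : Prop := HubOK → (∀ (A : BM) (C : ℝ), ∃ e n₀ : ℕ, ∀ w y : List Bool, n₀ ≤ w.length →
    (∀ T < NFU (num w), accU e (num w) (num y) T ≠ 0 → ∃ p r, A.AcceptsAt w y p r) ∧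
    (WithinU A C w y → ∃ T < NFU (num w), accU e (num w) (num y) T ≠ 0)) → MainU

end Pool.Agent.Helper53.UR
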