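import Pool.Agent.Helper53.CTG.All
import Pool.Agent.Helper53.UR.Hub
import Pool.Agent.Helper31.UR.OLM
import Pool.Agent.Helper51.UR.FB
import Pool.Agent.Helper53.UR.HUB
import Pool.Agent.Helper14.BR.RUNC
import Pool.Agent.Helper35.BR.CODE
import Pool.Agent.Helper12.BR.WORD
import Pool.Agent.Helper69.BR.SIZ
import Pool.Agent.Helper56.BR.LSP
import Pool.Agent.Helper96.BR.PAR
import Pool.Agent.Helper4.UR.DGS
import Pool.Agent.Helper4.UR.GEN
import Pool.Agent.Helper9.UR.PSS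
import Pool.Agent.Helper16.UR.ASU
import Pool.Agent.Helper16.UR.FI6
import Pool.Agent.Helper20.UR.FC1
import Pool.Agent.Helper24.UR.LNX
import Pool.Agent.Helper26.UR.FI0
import Pool.Agent.Helper32.UR.ACC
import Pool.Agent.Helper33.UR.FUN
import Pool.Agent.Helper35.UR.RD
import Pool.Agent.Helper43.UR.LBG
import Pool.Agent.Helper45.UR.LPR
import Pool.Agent.Helper62.UR.LSB
import Pool.Agent.Helper66.UR.KND
import Pool.Agent.Helper67.UR.FNU
import Pool.Agent.Helper83.UR.FCS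
import Pool.Agent.Helper84.UR.STP
import Pool.Agent.Helper88.UR.FX
import Pool.Agent.Helper93.UR.SQS
import Pool.Agent.Helper95.UR.PRA
import Pool.Agent.Helper98.UR.ETB
import Pool.Agent.Helper99.UR.TRE

/-!
# PROJECT UR (MP_c578c8_lc): assembly
-/

namespace Pool.Agent.Helper53.UR

open Pool.Agent.Helper1.TE (USPACE NUnamb)
open Pool.Agent.Helper65.LinSpace (Ctx LS)

theorem stepOK : StepOK := @Pool.Agent.Helper84.UR.gSTP

theorem accOK : AccOK := @Pool.Agent.Helper32.UR.gACC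

theorem invStep : InvStep := by
  intro β _ M hM w x γ hγ hx
  by_cases h : x.mo = 2
  · exact Pool.Agent.Helper16.UR.gFI6 @stepOK @accOK M hM w x γ hγ hx h
  · exact Pool.Agent.Helper26.UR.gFI0 M hM w x γ hγ hx h

theorem bigStep : BigStep := Pool.Agent.Helper20.UR.gFC1 @stepOK

theorem machOK : MachOK :=
  Pool.Agent.Helper83.UR.gFCS @accOK @Pool.Agent.Helper35.UR.gRD @bigStep @invStep

theorem fxOK : FXOK := Pool.Agent.Helper88.UR.gFX @stepOK @invStep

theorem nunamb {β : Type} [Ctx β] (M : UM β) (hM : M.Ok) (w : List Bool) : NUnamb M.mach w :=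
  Pool.Agent.Helper33.UR.gFUN @accOK @fxOK @invStep @machOK M hM w

theorem lsOK : LSOK := Pool.Agent.Helper24.UR.gLNX @Pool.Agent.Helper43.UR.gLBG

theorem passOK : PassOK := Pool.Agent.Helper9.UR.gPSS Pool.Agent.Helper66.UR.gKND

theorem seqOK : SeqOK :=
  Pool.Agent.Helper93.UR.gSQS Pool.Agent.Helper66.UR.gKND Pool.Agent.Helper4.UR.gDGS

theorem tree : ∀ (m : Pool.Agent.Helper65.BR.Mach) (e K b c : ℕ), TOk m e K b c →
    Pool.Agent.Helper53.CTG.ev (tb m e (K * (e + 3)) b) (e + 3) c (K * (e + 3)) 1 0 =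
      (m.conf (K * 2 ^ e)).1 :=
  (Pool.Agent.Helper99.UR.gTRE Pool.Agent.Helper66.UR.gKND
    Pool.Agent.Helper4.UR.gDGS passOK seqOK).2

theorem parOK : ParOK := Pool.Agent.Helper95.UR.gPRA

theorem lsParOK : LSParOK := Pool.Agent.Helper45.UR.gLPR parOK

theorem fnu (A : Pool.Agent.Helper65.BR.BM) (C : ℝ) : ∃ e n₀ : ℕ, ∀ w y : List Bool,
    n₀ ≤ w.length →
    (∀ T < NFU (Pool.Agent.Helper65.LinSpace.num w), accU e (Pool.Agent.Helper65.LinSpace.num w)
      (Pool.Agent.Helper65.LinSpace.num y) T ≠ 0 → ∃ p r, A.AcceptsAt w y p r) ∧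
    (WithinU A C w y → ∃ T < NFU (Pool.Agent.Helper65.LinSpace.num w),
      accU e (Pool.Agent.Helper65.LinSpace.num w) (Pool.Agent.Helper65.LinSpace.num y) T ≠ 0) :=
  Pool.Agent.Helper67.UR.gFNU tree parOK Pool.Agent.Helper16.UR.gASU A C

theorem boundOK : BoundOK := @Pool.Agent.Helper51.UR.gFB

theorem genOK : GenOK :=
  Pool.Agent.Helper4.UR.gGEN
    (@Pool.Agent.Helper89.TE.gCOM @Pool.Agent.Helper84.TE.gXPR @Pool.Agent.Helper16.TE.gXBODY
      @Pool.Agent.Helper1.TE.round @Pool.Agent.Helper57.TE.gDT @Pool.Agent.Helper54.TE.gT2A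
      @Pool.Agent.Helper48.TE.gT2B)
    @lsOK @machOK @nunamb @boundOK @Pool.Agent.Helper62.UR.gLSB

end Pool.Agent.Helper53.UR
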