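import Pool.Agent.Helper53.UR.Par
import Pool.Agent.Helper56.BR.LSP

/-!
# PROJECT UR (MP_c578c8_lc): packet TLS, the tables are computed in linear space
-/

namespace Pool.Agent.Helper53.UR

open Pool.Agent.Helper65.LinSpace Pool.Agent.Helper78.Mpc
open Pool.Agent.Helper65.BR (Mach BM prm bT lT)
open Pool.Agent.Helper65.RT (CT)
open Pool.Agent.Helper56.BR (two_pow_CT lsp)

theorem lsm (hP : LSParOK) : Pool.Agent.Helper65.BR.LSM (fun z : Qn => z.m) fun z => CT z.2.1 := by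
  obtain ⟨-, -, hT, hp, -⟩ := hP
  exact lsp (e := fun z : Qn => z.1) (x := fun z : Qn => z.2.1) (y := fun z : Qn => z.2.2.1)
    (T := fun z : Qn => z.T) (p := fun z : Qn => z.p) (by fun_prop) (by fun_prop) (by fun_prop) hT hp

section
variable (hP : LSParOK)
include hP

theorem ls_ps : LS (fun z : Qn => 2 ^ z.m.s) :=
  LS.pow_of_le (LS.const 2) (lsm hP).s (lsm hP).bd (lsm hP).hs

theorem ls_pa : LS (fun z : Qn => 2 ^ z.m.a) :=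
  LS.pow_of_le (LS.const 2) (lsm hP).a (lsm hP).bd (lsm hP).ha

theorem ls_vz : LS (fun x : Qn × ℕ × ℕ => vz x.1.m x.2.1 x.2.2) := by
  unfold vz
  have h1 : LS (fun x : Qn × ℕ × ℕ => 2 ^ x.1.m.a) :=
    LS.comp (g := fun z : Qn => 2 ^ z.m.a) (ls_pa hP) (by fun_prop)
  have h2 : LS (fun x : Qn × ℕ × ℕ => 2 ^ x.1.m.s) :=
    LS.comp (g := fun z : Qn => 2 ^ z.m.s) (ls_ps hP) (by fun_prop)
  exact LS.dig h1 (LS.div (by fun_prop) h2) (by fun_prop)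

theorem ls_st : LS (fun x : Qn × ℕ × ℕ => st x.1.m x.2.1 x.2.2) := by
  unfold st
  have h2 : LS (fun x : Qn × ℕ × ℕ => 2 ^ x.1.m.s) :=
    LS.comp (g := fun z : Qn => 2 ^ z.m.s) (ls_ps hP) (by fun_prop)
  have hC : LS (fun x : Qn × ℕ × ℕ => CT x.1.2.1) :=
    LS.comp (g := fun z : Qn => CT z.2.1) (lsm hP).bd (by fun_prop)
  refine LS.nrec (G := fun x : Qn × ℕ × ℕ => x.2.1 % 2 ^ x.1.m.s) (N := fun x => x.2.2)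
    (C := fun x => x.2.1 + CT x.1.2.1)
    (K := fun x t q => x.1.m.N q (vz x.1.m x.2.1 t)) (LS.mod (by fun_prop) h2) (by fun_prop)
    (LS.add (by fun_prop) hC) ?_ ?_
  · have h3 : LS (fun p : (Qn × ℕ × ℕ) × ℕ × ℕ => vz p.1.1.m p.1.2.1 p.2.1) :=
      LS.comp (g := fun x : Qn × ℕ × ℕ => vz x.1.m x.2.1 x.2.2)
        (f := fun p : (Qn × ℕ × ℕ) × ℕ × ℕ => (p.1.1, p.1.2.1, p.2.1)) (ls_vz hP) (by fun_prop)
    exact LS.comp (g := fun z : Qn × ℕ × ℕ => z.1.m.N z.2.1 z.2.2)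
      (f := fun p : (Qn × ℕ × ℕ) × ℕ × ℕ => (p.1.1, p.2.2, vz p.1.1.m p.1.2.1 p.2.1))
      (lsm hP).N (by fun_prop)
  · intro x i _
    cases i with
    | zero => exact (Nat.mod_le _ _).trans (Nat.le_add_right _ _)
    | succ i =>
      rw [nrec_succ]
      have h4 := ((lsm hP).ok x.1).hN (nrec (x.2.1 % 2 ^ x.1.m.s)
        (fun t q => x.1.m.N q (vz x.1.m x.2.1 t)) i) (vz x.1.m x.2.1 i)
      have h5 := (lsm hP).hs x.1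
      exact (h4.le.trans h5).trans (Nat.le_add_left _ _)

theorem ls_ct : LS (fun x : Qn × ℕ × ℕ × ℕ × ℕ =>
    ct x.1.m x.2.1 x.2.2.1 x.2.2.2.1 x.2.2.2.2) := by
  unfold ct
  have hC : LS (fun x : Qn × ℕ × ℕ × ℕ × ℕ => CT x.1.2.1) :=
    LS.comp (g := fun z : Qn => CT z.2.1) (lsm hP).bd (by fun_prop)
  refine LS.nrec (G := fun x : Qn × ℕ × ℕ × ℕ × ℕ => x.2.2.2.1) (N := fun x => x.2.2.2.2)
    (C := fun x => x.2.2.2.1 + CT x.1.2.1)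
    (K := fun x t c => x.1.m.W (st x.1.m x.2.1 t) (vz x.1.m x.2.1 t) x.2.2.1 c)
    (by fun_prop) (by fun_prop) (LS.add (by fun_prop) hC) ?_ ?_
  · have h3 : LS (fun p : (Qn × ℕ × ℕ × ℕ × ℕ) × ℕ × ℕ => vz p.1.1.m p.1.2.1 p.2.1) :=
      LS.comp (g := fun x : Qn × ℕ × ℕ => vz x.1.m x.2.1 x.2.2)
        (f := fun p : (Qn × ℕ × ℕ × ℕ × ℕ) × ℕ × ℕ => (p.1.1, p.1.2.1, p.2.1)) (ls_vz hP)
        (by fun_prop)
    have h4 : LS (fun p : (Qn × ℕ × ℕ × ℕ × ℕ) × ℕ × ℕ => st p.1.1.m p.1.2.1 p.2.1) :=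
      LS.comp (g := fun x : Qn × ℕ × ℕ => st x.1.m x.2.1 x.2.2)
        (f := fun p : (Qn × ℕ × ℕ × ℕ × ℕ) × ℕ × ℕ => (p.1.1, p.1.2.1, p.2.1)) (ls_st hP)
        (by fun_prop)
    exact LS.comp (g := fun z : Qn × ℕ × ℕ × ℕ × ℕ => z.1.m.W z.2.1 z.2.2.1 z.2.2.2.1 z.2.2.2.2)
      (f := fun p : (Qn × ℕ × ℕ × ℕ × ℕ) × ℕ × ℕ => (p.1.1, st p.1.1.m p.1.2.1 p.2.1,
        vz p.1.1.m p.1.2.1 p.2.1, p.1.2.2.1, p.2.2))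
      (lsm hP).W (by fun_prop)
  · intro x i _
    cases i with
    | zero => exact Nat.le_add_right _ _
    | succ i =>
      rw [nrec_succ]
      have h4 := ((lsm hP).ok x.1).hW (st x.1.m x.2.1 i) (vz x.1.m x.2.1 i) x.2.2.1
        (nrec x.2.2.2.1
          (fun t c => x.1.m.W (st x.1.m x.2.1 t) (vz x.1.m x.2.1 t) x.2.2.1 c) i)
      have h5 := (lsm hP).ha x.1
      exact (h4.le.trans h5).trans (Nat.le_add_left _ _)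

end

theorem ls_kd : LS (fun x : ℕ × ℕ × ℕ => kd x.1 x.2.1 x.2.2) := by
  unfold kd
  have h1 : LS (fun x : ℕ × ℕ × ℕ => x.2.2 / 2 ^ (x.2.1 - 1)) :=
    LS.divPow (LS.const 2) (by fun_prop) (by fun_prop)
  have h2 : LS (fun x : ℕ × ℕ × ℕ => x.2.2 / 2 ^ (x.2.1 - 2)) :=
    LS.divPow (LS.const 2) (by fun_prop) (by fun_prop)
  fun_prop

section
variable (hP : LSParOK) (hQ : ParOK)
include hP

theorem ls_eU : LS (fun z : Qn => eU z.n z.T) := hP.2.2.2.2.1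

theorem ls_dv : LS (fun x : Qn × ℕ => dv (eU x.1.n x.1.T) x.2) := by
  unfold dv
  have h1 : LS (fun x : Qn × ℕ => eU x.1.n x.1.T) :=
    LS.comp (g := fun z : Qn => eU z.n z.T) (ls_eU hP) (by fun_prop)
  have h2 : LS (fun x : Qn × ℕ => Nat.log 2 x.2) := LS.log2 (by fun_prop)
  fun_prop

theorem ls_pv : LS (fun x : Qn × ℕ => pv (eU x.1.n x.1.T) x.2) := by
  unfold pv
  exact LS.modPow (LS.const 2) (by fun_prop) (ls_dv hP)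

include hQ

theorem ls_pe : LS (fun z : Qn => 2 ^ eU z.n z.T) := by
  have h1 : LS (fun z : Qn => z.n) := hP.2.1
  refine LS.pow_of_le (C := fun z : Qn => 3 * (z.n + 1)) (LS.const 2) (ls_eU hP) (by fun_prop)
    fun z => ?_
  have h2 := (hQ.1 z.n z.T).2.2.2.2
  have h3 : 1 * 2 ^ eU z.n z.T ≤ (bT z.n z.T 1 + 1) * 2 ^ eU z.n z.T :=
    Nat.mul_le_mul_right _ (by omega)
  omega

/-- The power in the last table. -/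
theorem ls_pow : LS (fun x : Qn × ℕ => 2 ^ (x.1.m.s + x.1.m.a * (x.2 % 2 ^ eU x.1.n x.1.T))) := by
  have h1 : LS (fun x : Qn × ℕ => 2 ^ eU x.1.n x.1.T) :=
    LS.comp (g := fun z : Qn => 2 ^ eU z.n z.T) (ls_pe hP hQ) (by fun_prop)
  have h2 : LS (fun x : Qn × ℕ => x.1.m.s) :=
    LS.comp (g := fun z : Qn => z.m.s) (lsm hP).s (by fun_prop)
  have h3 : LS (fun x : Qn × ℕ => x.1.m.a) :=
    LS.comp (g := fun z : Qn => z.m.a) (lsm hP).a (by fun_prop)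
  have hC : LS (fun x : Qn × ℕ => CT x.1.2.1) :=
    LS.comp (g := fun z : Qn => CT z.2.1) (lsm hP).bd (by fun_prop)
  refine LS.pow_of_le (C := fun x : Qn × ℕ => CT x.1.2.1) (LS.const 2)
    (LS.add h2 (LS.mul h3 (LS.mod (by fun_prop) h1))) hC fun x => two_pow_CT ?_
  have h4 := (hQ.1 x.1.n x.1.T).2.2.2.2
  have h5 : x.2 % 2 ^ eU x.1.n x.1.T ≤ 2 ^ eU x.1.n x.1.T :=
    (Nat.mod_lt _ (by positivity)).le
  have h6 : x.1.m.a * (x.2 % 2 ^ eU x.1.n x.1.T) ≤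
      (bT x.1.n x.1.T 1 + 1) * 2 ^ eU x.1.n x.1.T := Nat.mul_le_mul le_rfl h5
  have h7 : x.1.m.s = bT x.1.n x.1.T 0 + 1 := rfl
  show x.1.m.s + x.1.m.a * (x.2 % 2 ^ eU x.1.n x.1.T) ≤ 100 * (x.1.n + 1)
  calc x.1.m.s + x.1.m.a * (x.2 % 2 ^ eU x.1.n x.1.T)
      ≤ (bT x.1.n x.1.T 0 + 1) + (bT x.1.n x.1.T 1 + 1) * 2 ^ eU x.1.n x.1.T :=
        Nat.add_le_add h7.le h6
    _ ≤ 3 * (x.1.n + 1) := h4
    _ ≤ 100 * (x.1.n + 1) := Nat.mul_le_mul_right _ (by omega)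

theorem tls : LS (fun x : Qn × ℕ × ℕ × ℕ × ℕ × ℕ =>
    x.1.t x.2.1 x.2.2.1 x.2.2.2.1 x.2.2.2.2.1 x.2.2.2.2.2) := by
  -- the node
  have hd : LS (fun x : Qn × ℕ × ℕ × ℕ × ℕ × ℕ => dv (eU x.1.n x.1.T) x.2.2.1) :=
    LS.comp (g := fun x : Qn × ℕ => dv (eU x.1.n x.1.T) x.2)
      (f := fun x : Qn × ℕ × ℕ × ℕ × ℕ × ℕ => (x.1, x.2.2.1)) (ls_dv hP) (by fun_prop)
  have hp : LS (fun x : Qn × ℕ × ℕ × ℕ × ℕ × ℕ => pv (eU x.1.n x.1.T) x.2.2.1) :=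
    LS.comp (g := fun x : Qn × ℕ => pv (eU x.1.n x.1.T) x.2)
      (f := fun x : Qn × ℕ × ℕ × ℕ × ℕ × ℕ => (x.1, x.2.2.1)) (ls_pv hP) (by fun_prop)
  have he : LS (fun x : Qn × ℕ × ℕ × ℕ × ℕ × ℕ => eU x.1.n x.1.T) :=
    LS.comp (g := fun z : Qn => eU z.n z.T) (ls_eU hP) (by fun_prop)
  have hk : LS (fun x : Qn × ℕ × ℕ × ℕ × ℕ × ℕ =>
      kd (eU x.1.n x.1.T) (dv (eU x.1.n x.1.T) x.2.2.1) (pv (eU x.1.n x.1.T) x.2.2.1)) :=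
    LS.comp (g := fun x : ℕ × ℕ × ℕ => kd x.1 x.2.1 x.2.2)
      (f := fun x : Qn × ℕ × ℕ × ℕ × ℕ × ℕ => (eU x.1.n x.1.T,
        dv (eU x.1.n x.1.T) x.2.2.1, pv (eU x.1.n x.1.T) x.2.2.1)) ls_kd (by fun_prop)
  have hpe : LS (fun x : Qn × ℕ × ℕ × ℕ × ℕ × ℕ => 2 ^ eU x.1.n x.1.T) :=
    LS.comp (g := fun z : Qn => 2 ^ eU z.n z.T) (ls_pe hP hQ) (by fun_prop)
  -- the position in the part
  have ht : LS (fun x : Qn × ℕ × ℕ × ℕ × ℕ × ℕ =>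
      pv (eU x.1.n x.1.T) x.2.2.1 % 2 ^ eU x.1.n x.1.T) := LS.mod hp hpe
  have hst : LS (fun x : Qn × ℕ × ℕ × ℕ × ℕ × ℕ =>
      st x.1.m x.2.2.2.1 (pv (eU x.1.n x.1.T) x.2.2.1 % 2 ^ eU x.1.n x.1.T)) :=
    LS.comp (g := fun x : Qn × ℕ × ℕ => st x.1.m x.2.1 x.2.2)
      (f := fun x : Qn × ℕ × ℕ × ℕ × ℕ × ℕ => (x.1, x.2.2.2.1,
        pv (eU x.1.n x.1.T) x.2.2.1 % 2 ^ eU x.1.n x.1.T)) (ls_st hP) (by fun_prop)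
  have hA : LS (fun x : Qn × ℕ × ℕ × ℕ × ℕ × ℕ => x.1.m.A
      (st x.1.m x.2.2.2.1 (pv (eU x.1.n x.1.T) x.2.2.1 % 2 ^ eU x.1.n x.1.T))) :=
    LS.comp (g := fun z : Qn × ℕ => z.1.m.A z.2)
      (f := fun x : Qn × ℕ × ℕ × ℕ × ℕ × ℕ => (x.1,
        st x.1.m x.2.2.2.1 (pv (eU x.1.n x.1.T) x.2.2.1 % 2 ^ eU x.1.n x.1.T)))
      (lsm hP).A (by fun_prop)
  have hq0 : LS (fun x : Qn × ℕ × ℕ × ℕ × ℕ × ℕ => x.1.m.q0) :=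
    LS.comp (g := fun z : Qn => z.m.q0) (lsm hP).q0 (by fun_prop)
  have hM0 : LS (fun x : Qn × ℕ × ℕ × ℕ × ℕ × ℕ => x.1.m.M0 (x.2.2.2.1 - 1)) :=
    LS.comp (g := fun z : Qn × ℕ => z.1.m.M0 z.2)
      (f := fun x : Qn × ℕ × ℕ × ℕ × ℕ × ℕ => (x.1, x.2.2.2.1 - 1)) (lsm hP).M0 (by fun_prop)
  have hsz : LS (fun x : Qn × ℕ × ℕ × ℕ × ℕ × ℕ =>
      st x.1.m x.2.2.2.2.2 (2 ^ eU x.1.n x.1.T)) :=
    LS.comp (g := fun x : Qn × ℕ × ℕ => st x.1.m x.2.1 x.2.2)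
      (f := fun x : Qn × ℕ × ℕ × ℕ × ℕ × ℕ => (x.1, x.2.2.2.2.2, 2 ^ eU x.1.n x.1.T))
      (ls_st hP) (by fun_prop)
  have hcz : LS (fun x : Qn × ℕ × ℕ × ℕ × ℕ × ℕ =>
      ct x.1.m x.2.2.2.2.2 (x.2.2.2.1 - 1) x.2.2.2.2.1 (2 ^ eU x.1.n x.1.T)) :=
    LS.comp (g := fun x : Qn × ℕ × ℕ × ℕ × ℕ => ct x.1.m x.2.1 x.2.2.1 x.2.2.2.1 x.2.2.2.2)
      (f := fun x : Qn × ℕ × ℕ × ℕ × ℕ × ℕ => (x.1, x.2.2.2.2.2, x.2.2.2.1 - 1, x.2.2.2.2.1,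
        2 ^ eU x.1.n x.1.T)) (ls_ct hP) (by fun_prop)
  have hcx : LS (fun x : Qn × ℕ × ℕ × ℕ × ℕ × ℕ =>
      ct x.1.m x.2.2.2.1 (x.1.m.A
        (st x.1.m x.2.2.2.1 (pv (eU x.1.n x.1.T) x.2.2.1 % 2 ^ eU x.1.n x.1.T))) x.2.2.2.2.1
        (pv (eU x.1.n x.1.T) x.2.2.1 % 2 ^ eU x.1.n x.1.T)) :=
    LS.comp (g := fun x : Qn × ℕ × ℕ × ℕ × ℕ => ct x.1.m x.2.1 x.2.2.1 x.2.2.2.1 x.2.2.2.2)
      (f := fun x : Qn × ℕ × ℕ × ℕ × ℕ × ℕ => (x.1, x.2.2.2.1, x.1.m.A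
        (st x.1.m x.2.2.2.1 (pv (eU x.1.n x.1.T) x.2.2.1 % 2 ^ eU x.1.n x.1.T)), x.2.2.2.2.1,
        pv (eU x.1.n x.1.T) x.2.2.1 % 2 ^ eU x.1.n x.1.T)) (ls_ct hP) (by fun_prop)
  have hpw : LS (fun x : Qn × ℕ × ℕ × ℕ × ℕ × ℕ => 2 ^ (x.1.m.s + x.1.m.a *
      (pv (eU x.1.n x.1.T) x.2.2.1 % 2 ^ eU x.1.n x.1.T))) :=
    LS.comp (g := fun x : Qn × ℕ => 2 ^ (x.1.m.s + x.1.m.a * (x.2 % 2 ^ eU x.1.n x.1.T)))
      (f := fun x : Qn × ℕ × ℕ × ℕ × ℕ × ℕ => (x.1, pv (eU x.1.n x.1.T) x.2.2.1))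
      (ls_pow hP hQ) (by fun_prop)
  have hN : LS (fun x : Qn × ℕ × ℕ × ℕ × ℕ × ℕ => x.1.N) :=
    LS.comp (g := fun z : Qn => z.N) hP.2.2.2.2.2.2.2.1 (by fun_prop)
  have hb : LS (fun x : Qn × ℕ × ℕ × ℕ × ℕ × ℕ => x.1.b) :=
    LS.comp (g := fun z : Qn => z.b) hP.2.2.2.2.2.2.2.2.2.1 (by fun_prop)
  have hl : LS (fun x : Qn × ℕ × ℕ × ℕ × ℕ × ℕ => Nat.log 2 x.2.2.1) := LS.log2 (by fun_prop)
  unfold Qn.t tb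
  refine LS.modPow (LS.const 2) ?_ hb
  unfold tb0 tb1 tb2
  have hx : LS (fun x : Qn × ℕ × ℕ × ℕ × ℕ × ℕ => x.2.2.2.1) := by fun_prop
  have hy : LS (fun x : Qn × ℕ × ℕ × ℕ × ℕ × ℕ => x.2.2.2.2.1) := by fun_prop
  have hz : LS (fun x : Qn × ℕ × ℕ × ℕ × ℕ × ℕ => x.2.2.2.2.2) := by fun_prop
  have hm : LS (fun x : Qn × ℕ × ℕ × ℕ × ℕ × ℕ => x.2.1) := by fun_prop
  have h0 : LS (fun _ : Qn × ℕ × ℕ × ℕ × ℕ × ℕ => (0 : ℕ)) := LS.const 0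
  have s1 := LS.sub hk (LS.const 1)
  have s2 := LS.sub hk (LS.const 2)
  have s3 := LS.sub hk (LS.const 3)
  refine LS.ifz hm ?_ (LS.ifz (LS.sub hm (LS.const 1)) ?_ ?_)
  · exact LS.ifz hk hx (LS.ifz s1 hx (LS.ifz s2 h0 (LS.ifz s3 hx (LS.succ hA))))
  · exact LS.ifz hk h0 (LS.ifz s1 h0 (LS.ifz s2 hy (LS.ifz s3 hy h0)))
  · exact LS.ifz hk (LS.ifz (LS.sub hN hl) (LS.ifz hx hq0 hM0) (LS.ifz hx hsz hcz))
      (LS.ifz s1 hy (LS.ifz s2 hz (LS.ifz s3 hz (LS.add hx (LS.mul hpw hcx)))))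

end

theorem gTLS : GoalTLS := fun hQ hP => tls hP hQ

end Pool.Agent.Helper53.UR
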