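import Pool.Agent.Helper53.UR.All
import Pool.Agent.Helper53.UR.Reg
import Pool.Agent.Helper53.UR.TLS
import Pool.Agent.Helper81.URE.Code
import Pool.Agent.Helper31.URE.Run

/-!
# PROJECT UR (MP_c578c8_lc): the theorem
-/

namespace Pool.Agent.Helper53.UR

open Pool.Agent.Helper65.LinSpace Pool.Agent.Helper78.Mpc
open Pool.Agent.Helper1.TE (USPACE)
open Pool.Agent.Helper81.UR (FnuOK)

theorem redOK : RedOK := by
  intro L hL
  obtain ⟨f, b, D, -, h1, h2, h3, -⟩ := Pool.Agent.Helper81.URE.red_uspace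
    (Pool.Agent.Helper81.URE.redNtm_of fun hR hn =>
      Pool.Agent.Helper31.URE.hist_iff (fun c hc i => hR c hc i) hn) hL
  exact ⟨f, h3, fun w => (h1 w).1, h2⟩

theorem hubOK : HubOK :=
  gHUB Pool.Agent.Helper31.UR.qHardOL lsParOK.1
    (Pool.Agent.Helper31.UR.gOLM @genOK Pool.Agent.Helper98.UR.gETB.2 parOK lsParOK
      (gTLS parOK lsParOK))

theorem fnuOK : FnuOK := fun A C => fnu A C



end Pool.Agent.Helper53.UR
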