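import Pool.Agent.Helper53.UR.Mach

/-!
# PROJECT UR (MP_c578c8_lc): goals, part A (the machine)

Deliver `Pool/Agent/<Seat>/UR/XX.lean` with `theorem gXX : GoalXX` (namespace
`Pool.Agent.<Seat>.UR`), imports `Pool.Agent.Helper53.UR.Goals` and, if needed,
`Pool.Agent.Helper53.CTG.All` (all theorems of project CTG: `algOK, ok9, diOK, eeOK`, packets `PB`,
`WFD`, `DES`, `LBG`, …). The proofs are adaptations of the proofs of project CTG with the same names;
the parameters `N, q, b, c, W` and the tables are now functions of the state `o` of the loop, and no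
letters of the input are read in the main loop.
-/

namespace Pool.Agent.Helper53.UR

open Pool.Agent.Helper1.TE (Gad app cif NumMach codeB USPACE NUnamb NStep NTM)
open Pool.Agent.Helper65.LinSpace (dig nrec ifz eq01 le01 lt01 Ctx LS num)
open Pool.Agent.Helper53.CTG (De De.k De.m De.e De.f De.v De.i De.T sub root Nt Hb Et Eb Fb Gb Pb
  bigT bigX bigS bigA gadC ev op runs toF dec)

/-- Correctness of the numeric step. -/
def StepOK : Prop := ∀ {β : Type} (M : UM β), M.Ok → ∀ (o : β) (ρ τ g X S A : ℕ),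
  τ < 13 ^ Nt (M.N o) (M.q o) → g < 8 ^ M.b o → X < (2 ^ Eb (M.b o)) ^ (3 * M.q o + 4) →
  S < (2 ^ Fb (M.N o) (M.q o) (M.b o)) ^ (3 * M.q o + 4) →
  M.Rchd o ρ τ (toF (M.N o) (M.q o) (M.b o) X S, A) →
  ∀ D : De, D = dec (M.q o) (root (M.N o) (M.q o)) (Nt (M.N o) (M.q o)) τ (Nt (M.N o) (M.q o)) →
  (bigT (M.tst o ρ) (M.b o) (M.c o) (M.W o) D g (M.wV o D A g) X A = 0 →
    M.opM o ρ τ g (toF (M.N o) (M.q o) (M.b o) X S, A) = none) ∧
  (bigT (M.tst o ρ) (M.b o) (M.c o) (M.W o) D g (M.wV o D A g) X A ≠ 0 → ∃ s',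
    M.opM o ρ τ g (toF (M.N o) (M.q o) (M.b o) X S, A) = some s' ∧
    M.Rchd o ρ (τ + 1) s' ∧
    (τ + 1 < 13 ^ Nt (M.N o) (M.q o) →
      s' = (toF (M.N o) (M.q o) (M.b o)
          (bigX (M.N o) (M.q o) (M.b o) (M.c o) (M.W o) D g (M.wV o D A g) X S A)
          (bigS (M.N o) (M.q o) (M.b o) (M.c o) (M.W o) D (M.wV o D A g) X S A),
        bigA (M.c o) (M.W o) D (M.wV o D A g) A) ∧
      bigX (M.N o) (M.q o) (M.b o) (M.c o) (M.W o) D g (M.wV o D A g) X S A <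
        (2 ^ Eb (M.b o)) ^ (3 * M.q o + 4) ∧
      bigS (M.N o) (M.q o) (M.b o) (M.c o) (M.W o) D (M.wV o D A g) X S A <
        (2 ^ Fb (M.N o) (M.q o) (M.b o)) ^ (3 * M.q o + 4)))

/-- STP. As `Pool/Agent/Helper78/CTG/STP.lean` (`M.W o = 2 ^ Et …` by `Ok.hW`; the tables are `M.t o`,
with `gA, gY, gZ` of `g` for `K = 2 ^ b`, `(2 ^ b) ^ 2 = 2 ^ (2 b)`; `Ok.ht` gives `TabOK`). -/
def GoalSTP : Prop := StepOK

/-- The algorithm accepts exactly for the right bit, and with one sequence of guesses only. -/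
def AccOK : Prop := ∀ {β : Type} (M : UM β), M.Ok → ∀ (o : β) (ρ : ℕ),
  ((∃ s', M.Rchd o ρ (13 ^ Nt (M.N o) (M.q o)) s') ↔
    M.tst o ρ (ev (M.t o) (M.q o) (M.c o) (M.N o) 1 0) ≠ 0) ∧
  ∀ γ γ' : ℕ → ℕ, (∀ τ, γ τ < 8 ^ M.b o) → (∀ τ, γ' τ < 8 ^ M.b o) →
    (runs (M.opM o ρ) γ (13 ^ Nt (M.N o) (M.q o)) (fun _ => (0, 0), 0)).isSome →
    (runs (M.opM o ρ) γ' (13 ^ Nt (M.N o) (M.q o)) (fun _ => (0, 0), 0)).isSome →
    ∀ τ < 13 ^ Nt (M.N o) (M.q o), γ τ = γ' τ

/-- ACC. As `Pool/Agent/Helper51/CTG/ACC.lean`. -/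
def GoalACC : Prop := AccOK

/-- FI0 (modes 0, 1, 3, 4). Mode 0: for `u < |w|` the letter `w[u]` has the code `1` or `2`, and
`num (w.take (u + 1)) = num (w.take u) + 2 ^ u * (1 + letter)` (induction on `w`); `2 ^ u ≤ num (w.take u)`;
for `u = |w|` there is no letter (code `0`) and the next state is `ctS (I (num w))`, `i = 0`. Mode 1: if
`h = 0` then the next state is a main state with `τ = 0` (`Rchd` at the time `0`, `toF 0 0 = fun _ => (0, 0)`,
`dec … 0 = root`), for both `γ`; if `h ≠ 0` then `γ = 1` gives `rejS`, and `γ = 0` gives `rejS` or `accS`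
(`w ∈ Lang` with `T = i`). Modes 3, 4: the state stays. If `γ = 1` and `gq x = 0` the next state is `rejS`
or `x`. (Compare `Pool/Agent/Helper53/CTG/FI0.lean`.) -/
def GoalFI0 : Prop := ∀ {β : Type} [Ctx β] (M : UM β), M.Ok → ∀ (w : List Bool) (x : Sta β)
  (γ : ℕ), γ < 2 → M.Inv w x → x.mo ≠ 2 → M.Inv w (M.mach.nx w x γ)

/-- FI6 (mode 2). As `Pool/Agent/Helper41/CTG/FI6.lean`. At the end of the algorithm (`τ + 1 = 13 ^ Nt`):
AccOK gives `tst o ρ (ev …) ≠ 0`, so `ρ = bit o`, and the next state is `ctS (orun (i + 1))`. -/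
def GoalFI6 : Prop := StepOK → AccOK → ∀ {β : Type} [Ctx β] (M : UM β), M.Ok →
  ∀ (w : List Bool) (x : Sta β) (γ : ℕ), γ < 2 → M.Inv w x → x.mo = 2 →
  M.Inv w (M.mach.nx w x γ)

/-- The invariant is preserved. -/
def InvStep : Prop := ∀ {β : Type} [Ctx β] (M : UM β), M.Ok → ∀ (w : List Bool) (x : Sta β)
  (γ : ℕ), γ < 2 → M.Inv w x → M.Inv w (M.mach.nx w x γ)

/-- RD. Reading the input (`γ = 0`, `|w| + 1` steps; the states are those of `Inv.m0`). -/
def GoalRD : Prop := ∀ {β : Type} [Ctx β] (M : UM β) (w : List Bool),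
  M.mach.Reach w (ctS (M.I (num w)))

/-- One step of the algorithm is done by the machine. -/
def BigStep : Prop := ∀ {β : Type} [Ctx β] (M : UM β), M.Ok → ∀ (w : List Bool) (o : β)
  (ρ τ g X S A : ℕ) (s' : (ℕ → ℕ × ℕ) × ℕ), τ < 13 ^ Nt (M.N o) (M.q o) → g < 8 ^ M.b o →
  X < (2 ^ Eb (M.b o)) ^ (3 * M.q o + 4) →
  S < (2 ^ Fb (M.N o) (M.q o) (M.b o)) ^ (3 * M.q o + 4) →
  M.Rchd o ρ τ (toF (M.N o) (M.q o) (M.b o) X S, A) →
  M.mach.Reach w (mainS o ρ 0 τ 0 (root (M.N o) (M.q o)) X S A) →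
  M.opM o ρ τ g (toF (M.N o) (M.q o) (M.b o) X S, A) = some s' →
  (τ + 1 = 13 ^ Nt (M.N o) (M.q o) → M.mach.Reach w (ctS (M.d o ρ))) ∧
  (τ + 1 < 13 ^ Nt (M.N o) (M.q o) → ∃ X' S' A', s' = (toF (M.N o) (M.q o) (M.b o) X' S', A') ∧
    X' < (2 ^ Eb (M.b o)) ^ (3 * M.q o + 4) ∧
    S' < (2 ^ Fb (M.N o) (M.q o) (M.b o)) ^ (3 * M.q o + 4) ∧
    M.mach.Reach w (mainS o ρ 0 (τ + 1) 0 (root (M.N o) (M.q o)) X' S' A'))

/-- FC1. As `Pool/Agent/Helper94/CTG/FC1.lean`: `Nt` steps which compute `dec`, `3 b` steps which guess the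
bits of `g` (most significant first), one step with StepOK. -/
def GoalFC1 : Prop := StepOK → BigStep

/-- Soundness and completeness of the machine. -/
def MachOK : Prop := ∀ {β : Type} [Ctx β] (M : UM β), M.Ok → ∀ w : List Bool,
  (∀ x, M.mach.Reach w x → M.Inv w x) ∧
  ((∃ x, M.mach.Reach w x ∧ M.mach.acc x ≠ 0) ↔ w ∈ M.Lang)

/-- FCS. As `Pool/Agent/Helper57/CTG/FCS.lean`. Completeness: let `T` be as in `Lang`. By induction on
`i ≤ T`, `ctS (orun i)` is reachable: RD for `i = 0`; for `i < T`, `h (orun i) = 0`: guess `ρ = bit o < 2`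
(`o = orun i`; `gq = 1`), which leads to `mainS o ρ 0 0 0 root 0 0 0`; `tst o ρ (ev …) ≠ 0`, so by AccOK there
is a complete run `γ`; by induction on the time `τ < 13 ^ Nt` the main state is reachable for the state
of the run at the time `τ` (BigStep), and at the end `ctS (d o ρ) = ctS (orun (i + 1))`. At `T`: `accS`. -/
def GoalFCS : Prop := AccOK → GoalRD → BigStep → InvStep → MachOK

/-- The conclusion of FX. -/
def FXOK : Prop := ∀ {β : Type} [Ctx β] (M : UM β), M.Ok → ∀ (w : List Bool)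
  (o : β) (ρ u τ g : ℕ) (D : De) (X S A : ℕ),
  M.Inv w (mainS o ρ u τ g D X S A) →
  Relation.ReflTransGen (NStep M.mach w) (mainS o ρ u τ g D X S A) accS →
  (Nt (M.N o) (M.q o) ≤ u → ∃ g' < 8 ^ M.b o,
    g' / 2 ^ (3 * M.b o - (u - Nt (M.N o) (M.q o))) = g ∧ ∃ E : (ℕ → ℕ × ℕ) × ℕ,
    M.opM o ρ τ g' (toF (M.N o) (M.q o) (M.b o) X S, A) = some E ∧
    ∃ γ : ℕ → ℕ, (∀ τ', γ τ' < 8 ^ M.b o) ∧
      (runs (fun τ' => M.opM o ρ (τ + 1 + τ')) γ (13 ^ Nt (M.N o) (M.q o) - (τ + 1)) E).isSome) ∧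
  (u ≤ Nt (M.N o) (M.q o) → ∃ γ : ℕ → ℕ, (∀ τ', γ τ' < 8 ^ M.b o) ∧
    (runs (fun τ' => M.opM o ρ (τ + τ')) γ (13 ^ Nt (M.N o) (M.q o) - τ)
      (toF (M.N o) (M.q o) (M.b o) X S, A)).isSome)

/-- FX (from the main loop to acceptance). As `Pool/Agent/Helper4/CTG/FX.lean`. Induction on the length of
the computation to `accS`; each big step is a step of `opM` by StepOK (`bigT = 0` leads to `rejS`, from
which only `rejS` is reachable); when the algorithm ends the run is complete. -/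
def GoalFX : Prop := StepOK → InvStep → FXOK

/-- FUN (unambiguity). As `Pool/Agent/Helper22/CTG/FUN.lean`. Suppose both successors of the reachable
state `x` (not accepting) reach acceptance; the only accepting state of the invariant is `accS`. For
`gq x = 0` the successor for `γ = 1` is `rejS`, from which only `rejS` is reachable. For `gq x = 1`:
(a) `x = ctS o` with `h o = 0`: the successors are main states for `ρ = 0, 1` with `u = τ = 0`; the second
part of FX gives complete runs for both (`toF 0 0`), so `tst o 0 v ≠ 0` and `tst o 1 v ≠ 0` (AccOK):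
contradiction; (b) `x` is a main state with `Nt ≤ u < Nt + 3 b`; FX for the two successors `2 g + γ`
gives two different `g'`, and with the run of the invariant before the time `τ` two complete runs with
different guesses at the time `τ` (`runs_add`), in contradiction to AccOK. -/
def GoalFUN : Prop := AccOK → FXOK → InvStep → MachOK →
  ∀ {β : Type} [Ctx β] (M : UM β), M.Ok → ∀ w : List Bool, NUnamb M.mach w

/-- The conclusion of FB. -/
def BoundOK : Prop := ∀ {β : Type} [Ctx β] (M : UM β), M.Ok → ∀ (w : List Bool) (B : ℕ),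
  2 ^ (w.length + 1) ≤ B →
  (∀ j, (∀ i < j, M.h (M.orun (num w) i) = 0) → 2 * M.W (M.orun (num w) j) ≤ B ∧
    ∀ i, Ctx.enc (M.orun (num w) j) i < B) →
  ∀ x, M.Inv w x → ∀ i, Ctx.enc x i < B

/-- FB (bounds). As `Pool/Agent/Helper16/CTG/FB.lean`. Modes 0, 3, 4: `num (w.take u) < 2 ^ (u + 1)`, and
`W ≥ 2 ^ 4` (`Et ≥ 4`), so `4 < B`; `Ctx.enc zb i = 0`. Mode 1: the entries of `o`. Mode 2: all entries
which do not belong to `o` are `< 2 * 2 ^ Et` (GoalPB, DIOK, GoalWFD as in CTG; `ρ < 2`). -/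
def GoalFB : Prop := BoundOK

/-! ### Linear space functions -/

/-- LBG. `tst`: `LS.eq01`, `LS.lt01`. `wV`: `LS.ifz`, `LS.divPow`, `LS.modPow`. `bigT`: `apT` as in
`Pool/Agent/Helper44/CTG/LN.lean`, then `bigT` as in `Pool/Agent/Helper63/CTG/LBG.lean`, with the test as
a function of the parameters. -/
def GoalLBG : Prop := ∀ {β : Type} [Ctx β] (M : UM β), M.Ls →
  LS (fun x : β × ℕ × ℕ => M.tst x.1 x.2.1 x.2.2) ∧
  LS (fun x : β × De × ℕ × ℕ => M.wV x.1 x.2.1 x.2.2.1 x.2.2.2) ∧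
  LS (fun x : (β × ℕ) × De × (ℕ × ℕ) × (ℕ × ℕ) =>
    bigT (M.tst x.1.1 x.1.2) (M.b x.1.1) (M.c x.1.1) (M.W x.1.1) x.2.1 x.2.2.1.1 x.2.2.1.2
      x.2.2.2.1 x.2.2.2.2)

/-- The conclusion of LNX. -/
def LSOK : Prop := ∀ {β : Type} [Ctx β] (M : UM β), M.Ls →
  LS M.mach.addr ∧ LS (fun p : Sta β × ℕ × ℕ => M.mach.next p.1 p.2.1 p.2.2) ∧ LS M.mach.acc

/-- LNX. As `Pool/Agent/Helper50/CTG/LNX.lean` (`bigX, bigS, bigA, sub, root, Nt` are `LS` by the packets LN,
LSUB, LBG of CTG, by composition). -/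
def GoalLNX : Prop := GoalLBG → LSOK

/-- LSB. Functions computed in linear space are bounded by polynomials: see the bound for `E2` functions
in `Pool/Agent/Helper6/LinSpace` or `Pool/Agent/Helper9/LinSpace` (the compilation to counter programs), or
prove it by induction on `E2`: `F e ≤ (B + 2) ^ k` if `e i ≤ B` for all `i`. -/
def GoalLSB : Prop := ∀ {α : Type} [Ctx α] (f : α → ℕ), LS f → ∃ k : ℕ, ∀ (a : α) (B : ℕ),
  (∀ i, Ctx.enc a i ≤ B) → f a ≤ (B + 2) ^ k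

/-- The languages of good machines with states of `O(n)` bits are in unambiguous linear space. -/
def GenOK : Prop := ∀ {β : Type} [Ctx β] (M : UM β), M.Ok → M.Ls → ∀ Cb : ℕ → ℕ, LS Cb →
  (∀ x j, (∀ i < j, M.h (M.orun x i) = 0) → ∀ i, Ctx.enc (M.orun x j) i ≤ Cb x) →
  M.Lang ∈ USPACE (fun n => (n : ℝ))

/-- GEN. As `Pool/Agent/Helper47/CTG/FIN.lean`. The first hypothesis is the compilation theorem of project
TE. Bounds: `num w < 2 ^ (|w| + 1)`; LSB for `Cb` and for `M.W` gives `K` with all entries of reachable states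
smaller than `2 ^ (K * (|w| + 1))` (FB), so space `c (K (|w| + 1) + 1) ≤ c' (|w| + 1)`. The first state has the
entries `0`, `acc` of it is `0`, `acc ≤ 1`. -/
def GoalGEN : Prop :=
  (∀ {α : Type} [Ctx α] (N : NumMach α), LS N.addr →
    LS (fun p : α × ℕ × ℕ => N.next p.1 p.2.1 p.2.2) → LS N.acc → (∀ a, N.acc a ≤ 1) →
    (∀ i, Ctx.enc N.start i = 0) → N.acc N.start = 0 →
    ∃ (k : ℕ) (M : NTM k) (c : ℕ), ∀ (w : List Bool) (S : ℕ),
      (∀ a, N.Reach w a → ∀ i, Ctx.enc a i < 2 ^ S) → NUnamb N w →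
      (M.Accepts w ↔ ∃ a, N.Reach w a ∧ N.acc a ≠ 0) ∧ M.Within w ((c * (S + 1) : ℕ) : ℝ) ∧
      M.Unambiguous w) →
  LSOK → MachOK →
  (∀ {β : Type} [Ctx β] (M : UM β), M.Ok → ∀ w : List Bool, NUnamb M.mach w) → BoundOK →
  GoalLSB → GenOK

end Pool.Agent.Helper53.UR
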