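import Pool.Agent.Helper53.CTG.Goals

/-!
# PROJECT UR (MP_c578c8_lc): the machine

A loop which decides one call tree in each step: the state `o : β` of the loop is a tuple of numbers;
in each step the machine guesses the bit of the result of the call tree with the parameters
`N o, q o, b o, c o` and the tables `t o`, checks it with the algorithm of project CTG, and goes on
with the state `d o bit`, until `h o ≠ 0`.
-/

namespace Pool.Agent.Helper53.UR

open Pool.Agent.Helper1.TE (Gad app cif NumMach codeB)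
open Pool.Agent.Helper65.LinSpace (dig nrec ifz eq01 le01 lt01 Ctx LS num)
open Pool.Agent.Helper53.CTG (De De.k De.m De.e De.f De.v De.i De.T sub root Nt Hb Et Eb Fb Gb Pb
  bigT bigX bigS bigA gadC ev op runs toF dec)

/-- A loop with questions to call trees. -/
structure UM (β : Type) where
  /-- the first state, for the input number `x` -/
  I : ℕ → β
  /-- the next state, if the answer is the given bit -/
  d : β → ℕ → β
  /-- not `0` in the last state -/
  h : β → ℕ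
  /-- the output in the last state -/
  out : β → ℕ
  N : β → ℕ
  q : β → ℕ
  b : β → ℕ
  c : β → ℕ
  /-- the number `2 ^ Et` -/
  W : β → ℕ
  /-- the tables -/
  t : β → ℕ → ℕ → ℕ → ℕ → ℕ → ℕ
  /-- the test for the result of the root -/
  ts : β → ℕ → ℕ

namespace UM

variable {β : Type} (M : UM β)

/-- The parameters and tables are good. -/
structure Ok : Prop where
  hq : ∀ o, 1 ≤ M.q o
  hN : ∀ o, M.q o ≤ M.N o
  hb : ∀ o, 1 ≤ M.b o
  hc : ∀ o, M.c o ≤ M.b o
  hW : ∀ o, M.W o = 2 ^ Et (M.N o) (M.q o) (M.b o) (M.c o)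
  ht : ∀ o m v x y z, M.t o m v x y z < 2 ^ M.b o

/-- All functions are computed in linear space. -/
structure Ls [Ctx β] : Prop where
  I : LS M.I
  d : LS (fun x : β × ℕ => M.d x.1 x.2)
  h : LS M.h
  out : LS M.out
  N : LS M.N
  q : LS M.q
  b : LS M.b
  c : LS M.c
  W : LS M.W
  t : LS (fun x : β × ℕ × ℕ × ℕ × ℕ × ℕ =>
    M.t x.1 x.2.1 x.2.2.1 x.2.2.2.1 x.2.2.2.2.1 x.2.2.2.2.2)
  ts : LS (fun x : β × ℕ => M.ts x.1 x.2)

/-- The answer to the question in the state `o`. -/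
def bit (o : β) : ℕ := lt01 0 (M.ts o (ev (M.t o) (M.q o) (M.c o) (M.N o) 1 0))

/-- The states of the loop for the input `x`. -/
def orun (M : UM β) (x : ℕ) : ℕ → β
  | 0 => M.I x
  | i + 1 => M.d (orun M x i) (M.bit (orun M x i))

/-- The language: at the first time with `h ≠ 0` the output is not `0`. -/
def Lang : Set (List Bool) :=
  {w | ∃ T, (∀ i < T, M.h (M.orun (num w) i) = 0) ∧ M.h (M.orun (num w) T) ≠ 0 ∧
    M.out (M.orun (num w) T) ≠ 0}

/-- The test for the guessed bit `ρ`. -/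
def tst (o : β) (ρ v : ℕ) : ℕ := eq01 (lt01 0 (M.ts o v)) ρ

/-- The steps of the algorithm in the state `o`, for the guessed bit `ρ`. -/
def opM (o : β) (ρ : ℕ) : ℕ → ℕ → (ℕ → ℕ × ℕ) × ℕ → Option ((ℕ → ℕ × ℕ) × ℕ) :=
  op (gadC (M.b o) (M.W o)) (M.tst o ρ) (M.t o) (M.q o) (M.c o) (root (M.N o) (M.q o))
    (Nt (M.N o) (M.q o))

/-- The state `s` can be reached at the time `τ`. -/
def Rchd (o : β) (ρ τ : ℕ) (s : (ℕ → ℕ × ℕ) × ℕ) : Prop :=
  ∃ γ : ℕ → ℕ, (∀ τ', γ τ' < 8 ^ M.b o) ∧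
    runs (M.opM o ρ) γ τ (fun _ => (0, 0), 0) = some s

/-- The entry of the table which is used in the step `D` with the guess `g`. -/
def wV (o : β) (D : De) (A g : ℕ) : ℕ :=
  ifz D.k (M.t o 2 D.v (A % 2 ^ M.c o) 0 0)
    (M.t o D.m D.v (g / 2 ^ (2 * M.b o)) (g / 2 ^ M.b o % 2 ^ M.b o) (g % 2 ^ M.b o))

end UM

/-! ### States -/

/-- States: mode, guessed bit, counter; time, guess; descriptor; contents, stacks, arguments; state
of the loop. -/
abbrev Sta (β : Type) := (ℕ × ℕ × ℕ) × (ℕ × ℕ) × De × (ℕ × ℕ × ℕ) × β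

namespace Sta

variable {β : Type}

/-- The mode. -/
def mo (x : Sta β) : ℕ := x.1.1
/-- The guessed bit. -/
def ρ (x : Sta β) : ℕ := x.1.2.1
/-- The counter. -/
def u (x : Sta β) : ℕ := x.1.2.2
/-- The time. -/
def τ (x : Sta β) : ℕ := x.2.1.1
/-- The guess. -/
def g (x : Sta β) : ℕ := x.2.1.2
/-- The descriptor. -/
def D (x : Sta β) : De := x.2.2.1
/-- The contents. -/
def X (x : Sta β) : ℕ := x.2.2.2.1.1
/-- The stacks. -/
def S (x : Sta β) : ℕ := x.2.2.2.1.2.1
/-- The stack of arguments. -/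
def A (x : Sta β) : ℕ := x.2.2.2.1.2.2
/-- The state of the loop. -/
def o (x : Sta β) : β := x.2.2.2.2

end Sta

variable {β : Type}

/-- The state of the loop with all entries `0`. -/
def zb [Ctx β] : β := Ctx.dec fun _ => 0

/-- The state when `u` letters of the input have been read; `v` is the number of these letters
without the last one, `p + 1` the power `2 ^ u`. -/
def rdS [Ctx β] (v p u : ℕ) : Sta β := ((0, 0, u), (v, p), (0, 0, 0, 0, 0, 0, 0), (0, 0, 0), zb)

/-- The state between two steps of the loop. -/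
def ctS (o : β) : Sta β := ((1, 0, 0), (0, 0), (0, 0, 0, 0, 0, 0, 0), (0, 0, 0), o)

/-- The state in the main loop of the algorithm. -/
def mainS (o : β) (ρ u τ g : ℕ) (D : De) (X S A : ℕ) : Sta β := ((2, ρ, u), (τ, g), D, (X, S, A), o)

/-- The accepting state. -/
def accS [Ctx β] : Sta β := ((3, 0, 0), (0, 0), (0, 0, 0, 0, 0, 0, 0), (0, 0, 0), zb)

/-- The rejecting state. -/
def rejS [Ctx β] : Sta β := ((4, 0, 0), (0, 0), (0, 0, 0, 0, 0, 0, 0), (0, 0, 0), zb)

namespace UM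

variable (M : UM β) [Ctx β]

/-- `1` if a bit is guessed in this state. -/
def gq (x : Sta β) : ℕ :=
  eq01 x.mo 1 * eq01 (M.h x.o) 0 +
    eq01 x.mo 2 * (le01 (Nt (M.N x.o) (M.q x.o)) x.u *
      lt01 x.u (Nt (M.N x.o) (M.q x.o) + 3 * M.b x.o))

/-- The next state; `y` is the code of the letter (`0` none, `1` false, `2` true) at the place
`x.u`, `γ` is the guessed bit. -/
def nextN (x : Sta β) (y γ : ℕ) : Sta β :=
  cif x.mo
    (cif y (ctS (M.I (x.τ + (x.g + 1))))
      (rdS (x.τ + (y - 1) * (x.g + 1)) (2 * x.g + 1) (x.u + 1)))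
  (cif (x.mo - 1)
    (cif (M.h x.o) (mainS x.o γ 0 0 0 (root (M.N x.o) (M.q x.o)) 0 0 0)
      (cif (M.out x.o) rejS accS))
  (cif (x.mo - 2)
    (cif (Nt (M.N x.o) (M.q x.o) - x.u)
      (cif (Nt (M.N x.o) (M.q x.o) + 3 * M.b x.o - x.u)
        (cif (bigT (M.tst x.o x.ρ) (M.b x.o) (M.c x.o) (M.W x.o) x.D x.g
            (M.wV x.o x.D x.A x.g) x.X x.A) rejS
          (cif ((x.τ + 1) / 13 ^ Nt (M.N x.o) (M.q x.o))
            (mainS x.o x.ρ 0 (x.τ + 1) 0 (root (M.N x.o) (M.q x.o))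
              (bigX (M.N x.o) (M.q x.o) (M.b x.o) (M.c x.o) (M.W x.o) x.D x.g
                (M.wV x.o x.D x.A x.g) x.X x.S x.A)
              (bigS (M.N x.o) (M.q x.o) (M.b x.o) (M.c x.o) (M.W x.o) x.D
                (M.wV x.o x.D x.A x.g) x.X x.S x.A)
              (bigA (M.c x.o) (M.W x.o) x.D (M.wV x.o x.D x.A x.g) x.A))
            (ctS (M.d x.o x.ρ))))
        (mainS x.o x.ρ (x.u + 1) x.τ (2 * x.g + γ) x.D x.X x.S x.A))
      (mainS x.o x.ρ (x.u + 1) x.τ x.g
        (sub (M.q x.o) x.D (Nt (M.N x.o) (M.q x.o) - 1 - x.u)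
          (dig 13 x.τ (Nt (M.N x.o) (M.q x.o) - 1 - x.u)))
        x.X x.S x.A))
    x))

/-- The next state; the bit `1` is allowed only if a bit is guessed. -/
def nextM (x : Sta β) (y γ : ℕ) : Sta β :=
  cif (γ * (1 - M.gq x)) (M.nextN x y γ) (cif (eq01 x.mo 3) rejS x)

/-- The machine. -/
def mach : NumMach (Sta β) where
  start := rdS 0 0 0
  addr x := x.u
  next := M.nextM
  acc x := eq01 x.mo 3

/-! ### The invariant -/

/-- The invariant of the machine. -/
inductive Inv (w : List Bool) : Sta β → Prop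
  | rej : Inv w rejS
  | m0 (u : ℕ) (hu : u ≤ w.length) : Inv w (rdS (num (w.take u) - 2 ^ u) (2 ^ u - 1) u)
  | m1 (i : ℕ) (h : ∀ j < i, M.h (M.orun (num w) j) = 0) : Inv w (ctS (M.orun (num w) i))
  | m2 (i ρ u τ g : ℕ) (D : De) (X S A : ℕ) (o : β) (ho : o = M.orun (num w) i)
      (h : ∀ j ≤ i, M.h (M.orun (num w) j) = 0) (hρ : ρ < 2)
      (hτ : τ < 13 ^ Nt (M.N o) (M.q o)) (hu : u ≤ Nt (M.N o) (M.q o) + 3 * M.b o)
      (hg : g < 2 ^ (u - Nt (M.N o) (M.q o)))
      (hD : D = dec (M.q o) (root (M.N o) (M.q o)) (Nt (M.N o) (M.q o)) τ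
        (min u (Nt (M.N o) (M.q o))))
      (hX : X < (2 ^ Eb (M.b o)) ^ (3 * M.q o + 4))
      (hS : S < (2 ^ Fb (M.N o) (M.q o) (M.b o)) ^ (3 * M.q o + 4))
      (hC : M.Rchd o ρ τ (toF (M.N o) (M.q o) (M.b o) X S, A)) :
      Inv w (mainS o ρ u τ g D X S A)
  | m3 (h : w ∈ M.Lang) : Inv w accS

end UM

end Pool.Agent.Helper53.UR
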