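import Pool.Agent.Helper53.UR.Tree
import Pool.Agent.Helper65.BR.Goals
import Pool.Agent.Helper53.UR.Goals

/-!
# PROJECT UR (MP_c578c8_lc): goals, part C (parameters, question, hardness of the simulation)

Deliver `Pool/Agent/<Seat>/UR/XX.lean` with `theorem gXX : GoalXX` (namespace
`Pool.Agent.<Seat>.UR`). Proved statements of project BR may be used: RUNC (`Helper14.BR.runc`), CODE
(`Helper35.BR.CODE`), WORD (`Helper12.BR.WORD`), SIZ (`Helper69.BR.siz`), LSP (`Helper56.BR.lsp`), PAR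
(`Helper96.BR.PAR`), ASY (`Helper16.BR.asy`), FIN (`Helper91.BR.fin`).
-/

namespace Pool.Agent.Helper53.UR

open Pool.Agent.Helper65.LinSpace Pool.Agent.Helper78.Mpc Filter
open Pool.Agent.Helper65.BR (Mach BM prm bT lT)
open Pool.Agent.Helper53.CTG (ev Et Nt Hb Eb Fb)

/-! ### Parameters -/

/-- The number of bits of a word. -/
def betU (n T : ℕ) : ℕ := n / (lT n T * lT n T)

/-- The exponent `e` of the number `2 ^ e` of the reads of a part. -/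
def eU (n T : ℕ) : ℕ := Nat.log 2 (betU n T / (2 * (bT n T 1 + 1)))

/-- The number of the parts. -/
def KU (n T : ℕ) : ℕ := n / lT n T + 1

/-- `1` if the parameters are admissible. -/
def okU (n T : ℕ) : ℕ :=
  le01 (bT n T 0 + 1 + (bT n T 1 + 1) * 2 ^ eU n T) (betU n T) * le01 (bT n T 2 + 2) (betU n T)

/-- The number of bits of a result in the call tree. -/
def bU (n T : ℕ) : ℕ := ifz (okU n T) 1 (betU n T)

/-- The number of bits of an argument. -/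
def cU (n T : ℕ) : ℕ := ifz (okU n T) 0 (bT n T 2 + 2)

/-- The height of the call tree. -/
def NU (n T : ℕ) : ℕ := KU n T * (eU n T + 3)

/-! ### The question: `z = (e, x, y, T')`, where `T' = T * (2 x + 2) + p` -/

/-- A question: the code `e` of the machine, the input `x`, the additional word `y`, and `T'`. -/
abbrev Qn := ℕ × ℕ × ℕ × ℕ

namespace Qn

/-- The length of the input. -/
def n (z : Qn) : ℕ := Nat.log 2 z.2.1
/-- The code of the bounds. -/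
def T (z : Qn) : ℕ := z.2.2.2 / (2 * z.2.1 + 2)
/-- The number of the parameter word. -/
def p (z : Qn) : ℕ := z.2.2.2 % (2 * z.2.1 + 2)
/-- The machine. -/
def m (z : Qn) : Mach := (prm z.1 z.2.1 z.2.2.1 z.T z.p).mach
/-- The height of the tree. -/
def N (z : Qn) : ℕ := NU z.n z.T
/-- The height of a part of the tree. -/
def q (z : Qn) : ℕ := eU z.n z.T + 3
/-- The bits of results. -/
def b (z : Qn) : ℕ := bU z.n z.T
/-- The bits of arguments. -/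
def c (z : Qn) : ℕ := cU z.n z.T
/-- The number `2 ^ Et`. -/
def W (z : Qn) : ℕ := capPow 2 (Et z.N z.q z.b z.c) ((z.2.1 + 2) ^ 2000)
/-- The tables. -/
def t (z : Qn) (mm v x y w : ℕ) : ℕ := tb z.m (eU z.n z.T) z.N z.b mm v x y w
/-- The test for the result. -/
def s (z : Qn) (v : ℕ) : ℕ :=
  okU z.n z.T * (lt01 0 z.p * (lt01 z.p (2 ^ (bT z.n z.T 0 + 1)) * accN v))
/-- The value of the root. -/
def val (z : Qn) : ℕ := ev z.t z.q z.c z.N 1 0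

end Qn

/-- The answer: `1` if the simulation finds acceptance for the bounds `T` and the parameter word
`p`. -/
def accU (e x y T : ℕ) : ℕ := lt01 0 (Qn.s (e, x, y, T) (Qn.val (e, x, y, T)))

/-- The number of the codes `T'`. -/
def NFU (x : ℕ) : ℕ := (Nat.log 2 x + 2) ^ 3 * (2 * x + 2)

/-! ### Goals -/

/-- ETB. Put `λ = lT n T`, `q = eU + 3`, `K = KU`, `N = K q`. `betU λ ^ 2 ≤ n`, `eU ≤ log₂ (betU) ≤ log₂ n`, so
`q + 2 ≤ λ` (`λ = bT 2 + ll n + 4`, `ll n = log₂ n + 1`), `3 q + 4 ≤ 3 λ`; `λ ≤ 5 (n + 1)`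
(`bT ≤ ZL n ≤ n`, `log₂ n ≤ n`). `Pb b ≤ 38 b`, so `Eb b ≤ 6 b (log₂ b + 7)`: for `b = 1` this is `≤ 42`, for
`b = betU` it is `≤ 12 b λ` (`log₂ b + 7 ≤ 2 λ`), so `(3 q + 4) Eb b ≤ 36 n + 126 λ`. `Gb b ≤ 146`, so
`Fb N q b ≤ 8 (Hb + 1)`; `Hb N q = (K q - 1) / q + 1 = K`, so `(3 q + 4) Fb ≤ 24 λ (K + 1) ≤ 24 (n + 2 λ)`
(`λ K ≤ n + λ`). `4 Nt ≤ 4 K (q + 1) ≤ 4 (n + λ)`, `4 b ≤ 4 (n + 1)`,
`c (Hb + 2) ≤ λ (K + 2) ≤ n + 3 λ`. The sum is at most `69 n + 181 λ + 8 ≤ 1000 (n + 1)`. The second part: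
`2 ^ (n + 1) ≤ (x + 2) ^ 2` for `n = log₂ x`. -/
def GoalETB : Prop :=
  (∀ n T : ℕ, Et (NU n T) (eU n T + 3) (bU n T) (cU n T) ≤ 1000 * (n + 1)) ∧
  ∀ z : Qn, z.W = 2 ^ Et z.N z.q z.b z.c

/-- The parameters are good. -/
def ParOK : Prop :=
  (∀ n T : ℕ, 1 ≤ eU n T + 3 ∧ eU n T + 3 ≤ NU n T ∧ 1 ≤ bU n T ∧ cU n T ≤ bU n T ∧
    (bT n T 0 + 1) + (bT n T 1 + 1) * 2 ^ eU n T ≤ 3 * (n + 1)) ∧
  (∀ (z : Qn) (mm v x y w : ℕ), z.t mm v x y w < 2 ^ z.b) ∧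
  ∀ z : Qn, okU z.n z.T ≠ 0 → TOk z.m (eU z.n z.T) (KU z.n z.T) z.b z.c

/-- PRA. `KU ≥ 1`; if `okU ≠ 0` then both `le01` are `1`, so `1 ≤ betU` and `cU ≤ betU`. Last inequality of
the first part: `bT ≤ ZL n ≤ n`; either `betU / (2 A) = 0` and `eU = 0`, or
`2 ^ eU ≤ betU / (2 A)`, so `A 2 ^ eU ≤ n` (`Nat.pow_log_le_self`). Third part: `z.m.s = S + 1`, `z.m.a = H + 1`,
`z.m.ν = Z + 1` with `S = bT 0`, `H = bT 1`, `Z = bT 2`; `Ok` by PAR of project BR. -/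
def GoalPRA : Prop := ParOK

/-- ASU. The parameters for large `n`. Put `l = m + ll n` (real number `m + ⌊log₂ n⌋ + 1`),
`λ = lT n T = l + 4 ≤ 5 l` (`T = s + (n + 2) (a + (n + 2) m)` has the digits `s`, `a`, `m` in base `n + 2`; see
the proof of ASY, `Pool/Agent/Helper16/BR/ASY.lean`, also for `s, a, m ≤ ZL n`), `A = a + 1`. From `1 ≤ s`:
`l ^ 4 ≤ C (n + 1)`; `l ≥ log₂ n` is large. `β = betU ≥ n / (25 l ^ 2) - 1 ≥ n / (50 l ^ 2)`. By the second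
condition `s + 1 ≤ 2 s ≤ β / 2`, `4 A ≤ β` (as `s, a ≤ C (n + 1) / l ^ 4`), `m + 2 ≤ β`, and
`A 2 ^ eU ≤ β / 2` (`β / (2 A) ≥ 1`, `Nat.pow_log_le_self`), so `okU = 1`. `2 ^ eU ≥ β / (8 A)`
(`Nat.lt_pow_succ_log_self`; `⌊y⌋ ≥ y / 2` for `y ≥ 1`), `KU ≥ n / λ` (real), so
`KU 2 ^ eU ≥ n ^ 2 / (2000 l ^ 3 A) ≥ C (n + 1) ^ 2 / (A l ^ 4) ≥ x` for large `n`. -/
def GoalASU : Prop := ∀ C : ℝ, ∀ᶠ n : ℕ in atTop, ∀ x s m a : ℕ, 1 ≤ s →
  (x : ℝ) * ((a : ℝ) + 1) * ((m : ℝ) + ((Nat.log 2 n : ℝ) + 1)) ^ 4 ≤ C * ((n : ℝ) + 1) ^ 2 →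
  ((s : ℝ) + a) * ((m : ℝ) + ((Nat.log 2 n : ℝ) + 1)) ^ 4 ≤ C * ((n : ℝ) + 1) →
  ∃ T < (n + 2) ^ 3, bT n T 0 = s ∧ bT n T 1 = a ∧ bT n T 2 = m ∧ okU n T = 1 ∧
    x ≤ KU n T * 2 ^ eU n T

/-- The parameters are computed in linear space. -/
def LSParOK : Prop := LS NFU ∧ LS (fun z : Qn => z.n) ∧ LS (fun z : Qn => z.T) ∧
  LS (fun z : Qn => z.p) ∧ LS (fun z : Qn => eU z.n z.T) ∧ LS (fun z : Qn => KU z.n z.T) ∧
  LS (fun z : Qn => okU z.n z.T) ∧ LS Qn.N ∧ LS Qn.q ∧ LS Qn.b ∧ LS Qn.c ∧ LS Qn.W ∧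
  LS (fun x : Qn × ℕ => x.1.s x.2)

/-- LPR. `bT`, `lT`: `LS.min`, `LS.dig` (compare `Pool/Agent/Helper56/BR/LSP.lean`); `2 ^ eU ≤ betU + 1`
(`LS.pow_of_le`; or `2 ^ Nat.log 2 y` is `LS`); `2 ^ (bT 0 + 1) ≤ 2 * 2 ^ n ≤ 2 x + 2`; `Et` is `LS`:
`Pool/Agent/Helper44/CTG/LN.lean`; `W`: `LS.capPow`. -/
def GoalLPR : Prop := ParOK → LSParOK

/-- TLS (the tables). `z.m` is a family with `LSM` (LSP of project BR, `m z = (prm …).mach`), so `m.s, m.a, m.A,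
m.N, m.W, m.q0, m.M0` are `LS`. `vz`: `2 ^ m.a`, `2 ^ m.s` are at most `CT x` (`LSM.ha`, `LSM.hs`), `LS.dig`. `st`: `LS.nrec` with the
bound `Z + CT x`, `ct`: `LS.nrec` with the bound `c + CT x`; the number of steps is `2 ^ eU` or
`p % 2 ^ eU`. `kd`: `LS.divPow` and remainders; `dv`, `pv`: `LS.log2`, `LS.modPow`.
`2 ^ (m.s + m.a * (p % 2 ^ eU)) ≤ 2 ^ (3 (n + 1)) ≤ (x + 2) ^ 6` by ParOK (`LS.pow_of_le`). -/
def GoalTLS : Prop := ParOK → LSParOK →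
  LS (fun x : Qn × ℕ × ℕ × ℕ × ℕ × ℕ =>
    x.1.t x.2.1 x.2.2.1 x.2.2.2.1 x.2.2.2.2.1 x.2.2.2.2.2)

/-- The machine accepts the input word `w` of length `n`, with the additional word `y`, for some
parameter `p` at some time `r`, with the following bounds: the parameter, states and addresses have
at most `s` bits, names of blocks at most `m` bits, contents of blocks at most `a` bits, and at most
`x` blocks are read. For `l = m + ⌊log₂ n⌋ + 1`: `x (a + 1) l ^ 4 ≤ C (n + 1) ^ 2` and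
`(s + a) l ^ 4 ≤ C (n + 1)`. The time `r` is not bounded. -/
def WithinU (A : BM) (C : ℝ) (w y : List Bool) : Prop :=
  ∃ (p : List Bool) (r s m a : ℕ), A.AcceptsAt w y p r ∧ p.length ≤ s ∧ A.Fits w y p r s m a ∧
    (A.reads w y p r : ℝ) * ((a : ℝ) + 1) *
      ((m : ℝ) + ((Nat.log 2 w.length : ℝ) + 1)) ^ 4 ≤ C * ((w.length : ℝ) + 1) ^ 2 ∧
    ((s : ℝ) + a) * ((m : ℝ) + ((Nat.log 2 w.length : ℝ) + 1)) ^ 4 ≤ C * ((w.length : ℝ) + 1)

/-- FNU. As `Pool/Agent/Helper91/BR/FIN.lean`, with the tree (second part of TRE) instead of the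
parallel machine. The code of the machine is the same `e`. For a question `z = (e, num w, num y, T')`
with `okU ≠ 0` (ParOK): `z.val = (z.m.conf (KU * 2 ^ eU)).1`, `z.n = |w|`.
(a) If `accU ≠ 0` then `okU ≠ 0`, `0 < p < 2 ^ (S + 1)` and `accN z.val ≠ 0`; `p = num p'` with `|p'| ≤ S`; RUNC.snd
and WORD.snd give the claim.
(b) As in FIN: the smallest accepting time; ASU for `x = reads` gives `T`; the reads of `run` before `r`
are the reads of `A`, their number is at most `KU * 2 ^ eU`, and RUNC.cmp gives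
`accN (mach.conf (KU * 2 ^ eU)).1 ≠ 0`. `T' = T * (2 x + 2) + num p < NFU x`, as
`num p < 2 ^ (S + 1) ≤ 2 ^ (n + 1) ≤ 2 x < 2 x + 2` (`x = num w ≥ 2 ^ n`, `S ≤ ZL n ≤ n`). -/
def GoalFNU : Prop :=
  (∀ (m : Mach) (e K b c : ℕ), TOk m e K b c →
    ev (tb m e (K * (e + 3)) b) (e + 3) c (K * (e + 3)) 1 0 = (m.conf (K * 2 ^ e)).1) →
  ParOK → GoalASU → ∀ (A : BM) (C : ℝ), ∃ e n₀ : ℕ, ∀ w y : List Bool, n₀ ≤ w.length →
    (∀ T < NFU (num w), accU e (num w) (num y) T ≠ 0 → ∃ p r, A.AcceptsAt w y p r) ∧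
    (WithinU A C w y → ∃ T < NFU (num w), accU e (num w) (num y) T ≠ 0)

end Pool.Agent.Helper53.UR
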