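import Pool.Agent.Helper81.UR.Prg

/-!
# PROJECT UR (MP_c578c8_lc): programs with small numbers in time `C n ^ 2 / log ^ 5 n`
-/

namespace Pool.Agent.Helper53.UR

open Pool.Agent.Helper81.RP (Ins AcceptsAt conf)
open Pool.Agent.Helper81.UR (WithinP WithinT within_of_time)

theorem pow5 (m : ℕ) : (m + 1) ^ 5 ≤ 3840 * 2 ^ m := by
  have h1 : (m + 1) ^ 5 ≤ (m + 1).ascFactorial 5 := Nat.pow_succ_le_ascFactorial (m + 1) 5
  have h2 : (m + 1).ascFactorial 5 = Nat.factorial 5 * (m + 5).choose 5 :=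
    Nat.ascFactorial_eq_factorial_mul_choose m 5
  have h3 : (m + 5).choose 5 ≤ 2 ^ (m + 5) := Nat.choose_le_two_pow (m + 5) 5
  have h4 : Nat.factorial 5 = 120 := by decide
  rw [h2, h4] at h1
  calc (m + 1) ^ 5 ≤ 120 * (m + 5).choose 5 := h1
    _ ≤ 120 * 2 ^ (m + 5) := Nat.mul_le_mul_left _ h3
    _ = 3840 * 2 ^ m := by rw [pow_add]; ring

/-- A program which accepts `v`, of length `n`, in `C n ^ 2 / log ^ 5 n` steps with numbers smaller
than `(n + 2) ^ a`, is within the bounds `WithinP` for another constant. -/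
theorem within_time (P : List Ins) (a : ℕ) (C : ℝ) : ∃ C' : ℝ, ∀ (v y : List Bool) (t : ℕ),
    AcceptsAt P v y t → (∀ u ≤ t, ∀ i, (conf P v y u).2 i < (v.length + 2) ^ a) →
    (t : ℝ) ≤ C * ((v.length : ℝ) + 1) ^ 2 / ((Nat.log 2 v.length : ℝ) + 1) ^ 5 →
    WithinP P C' v y := by
  refine ⟨16 * (32 * ((a : ℝ) + 1) ^ 5 * (|C| + 3840)), fun v y t ht hn hC => ?_⟩
  refine within_of_time P _ v y ?_
  obtain ⟨m, hm⟩ : ∃ m, m = Nat.log 2 v.length := ⟨_, rfl⟩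
  have h2 : v.length + 2 ≤ 2 ^ (m + 2) := by
    have h1 : v.length < 2 ^ (m + 1) := by
      rw [hm]
      exact Nat.lt_pow_succ_log_self (by norm_num) _
    have h3 : 2 ^ (m + 2) = 2 * 2 ^ (m + 1) := by ring
    have h4 : 1 ≤ 2 ^ (m + 1) := Nat.one_le_two_pow
    have h5 : 2 ≤ 2 ^ (m + 1) := by
      rw [pow_succ]
      have := Nat.one_le_two_pow (n := m)
      omega
    omega
  have h3 : (2 : ℕ) ^ m ≤ v.length + 1 := by
    rcases Nat.eq_zero_or_pos v.length with h | h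
    · rw [hm, h]
      simp
    · rw [hm]
      exact (Nat.pow_log_le_self 2 (by omega)).trans (by omega)
  have h4 : ((m : ℝ) + 1) ^ 5 ≤ 3840 * ((v.length : ℝ) + 1) := by
    have h5 : (m + 1) ^ 5 ≤ 3840 * (v.length + 1) := (pow5 m).trans (Nat.mul_le_mul_left _ h3)
    exact_mod_cast h5
  have hl : (0 : ℝ) < ((m : ℝ) + 1) ^ 5 := by positivity
  have hN : (0 : ℝ) ≤ (v.length : ℝ) + 1 := by positivity
  have ht5 : (t : ℝ) * ((m : ℝ) + 1) ^ 5 ≤ |C| * ((v.length : ℝ) + 1) ^ 2 := by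
    rw [← hm, le_div_iff₀ hl] at hC
    exact hC.trans (mul_le_mul_of_nonneg_right (le_abs_self C) (by positivity))
  have hs : (((a + 1) * (m + 2) : ℕ) : ℝ) ^ 5 ≤ 32 * ((a : ℝ) + 1) ^ 5 * ((m : ℝ) + 1) ^ 5 := by
    have h6 : (((a + 1) * (m + 2) : ℕ) : ℝ) ≤ 2 * (((a : ℝ) + 1) * ((m : ℝ) + 1)) := by
      push_cast
      nlinarith [Nat.cast_nonneg (α := ℝ) a, Nat.cast_nonneg (α := ℝ) m]
    calc (((a + 1) * (m + 2) : ℕ) : ℝ) ^ 5 ≤ (2 * (((a : ℝ) + 1) * ((m : ℝ) + 1))) ^ 5 :=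
          pow_le_pow_left₀ (Nat.cast_nonneg _) h6 5
      _ = 32 * ((a : ℝ) + 1) ^ 5 * ((m : ℝ) + 1) ^ 5 := by ring
  refine ⟨t, (a + 1) * (m + 2), ?_, ht, fun u hu i => ?_, ?_, ?_⟩
  · rw [← hm]
    nlinarith [Nat.zero_le a, Nat.zero_le m]
  · refine (hn u hu i).trans_le ?_
    calc (v.length + 2) ^ a ≤ (2 ^ (m + 2)) ^ a := Nat.pow_le_pow_left h2 a
      _ = 2 ^ ((m + 2) * a) := (pow_mul _ _ _).symm
      _ ≤ 2 ^ ((a + 1) * (m + 2)) := Nat.pow_le_pow_right (by norm_num) (by nlinarith)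
  · calc (t : ℝ) * (((a + 1) * (m + 2) : ℕ) : ℝ) ^ 5
        ≤ t * (32 * ((a : ℝ) + 1) ^ 5 * ((m : ℝ) + 1) ^ 5) :=
          mul_le_mul_of_nonneg_left hs (Nat.cast_nonneg _)
      _ = 32 * ((a : ℝ) + 1) ^ 5 * (t * ((m : ℝ) + 1) ^ 5) := by ring
      _ ≤ 32 * ((a : ℝ) + 1) ^ 5 * (|C| * ((v.length : ℝ) + 1) ^ 2) :=
          mul_le_mul_of_nonneg_left ht5 (by positivity)
      _ ≤ 32 * ((a : ℝ) + 1) ^ 5 * ((|C| + 3840) * ((v.length : ℝ) + 1) ^ 2) := by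
          refine mul_le_mul_of_nonneg_left ?_ (by positivity)
          exact mul_le_mul_of_nonneg_right (by linarith) (by positivity)
      _ = _ := by ring
  · calc (((a + 1) * (m + 2) : ℕ) : ℝ) ^ 5
        ≤ 32 * ((a : ℝ) + 1) ^ 5 * ((m : ℝ) + 1) ^ 5 := hs
      _ ≤ 32 * ((a : ℝ) + 1) ^ 5 * (3840 * ((v.length : ℝ) + 1)) :=
          mul_le_mul_of_nonneg_left h4 (by positivity)
      _ ≤ 32 * ((a : ℝ) + 1) ^ 5 * ((|C| + 3840) * ((v.length : ℝ) + 1)) := by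
          refine mul_le_mul_of_nonneg_left ?_ (by positivity)
          exact mul_le_mul_of_nonneg_right (by linarith [abs_nonneg C]) hN
      _ = _ := by ring

end Pool.Agent.Helper53.UR
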