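import Pool.Agent.Helper53.UR.Mach
import Pool.Agent.Helper65.BR.Num

/-!
# PROJECT UR (MP_c578c8_lc): goals, part B (the call tree of a machine with a memory of blocks)

Deliver `Pool/Agent/<Seat>/UR/XX.lean` with `theorem gXX : GoalXX` (namespace
`Pool.Agent.<Seat>.UR`).

The reads of the machine `m` are divided into parts of `B = 2 ^ e` reads. The call tree has the height
`N = K * q`, `q = e + 3`. A node whose height is `j * q` returns, for the argument `0`, the state after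
`j * B` steps, and for the argument `x + 1` the content of the block `x` after `j * B` steps. Its left
subtree calls (by a path of nodes which pass the argument) the node below of height `(j - 1) * q` with the
same argument; its right subtree computes the state at the time `(j - 1) * B` and the values of the
`B` reads, one after the other.
-/

namespace Pool.Agent.Helper53.UR

open Pool.Agent.Helper65.LinSpace (dig tab nrec ifz eq01 le01 lt01 Ctx LS num)
open Pool.Agent.Helper65.BR (Mach)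
open Pool.Agent.Helper53.CTG (ev)

/-- The value which is read in the step `t` of a part, as coded by `Z`. -/
def vz (m : Mach) (Z t : ℕ) : ℕ := dig (2 ^ m.a) (Z / 2 ^ m.s) t

/-- The state after `t` steps of the part which is coded by `Z`. -/
def st (m : Mach) (Z t : ℕ) : ℕ := nrec (Z % 2 ^ m.s) (fun t q => m.N q (vz m Z t)) t

/-- The content of the block `x` after `t` steps of the part, `c` being the content at its start. -/
def ct (m : Mach) (Z x c t : ℕ) : ℕ := nrec c (fun t c => m.W (st m Z t) (vz m Z t) x c) t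

/-- The kind of a node: `d` is the number of the levels above it in its part of the tree, `p` the
path (`p < 2 ^ d`, the first step is the most significant bit). `0`: top; `1`: pass; `2`: start; `3`:
sequence; `4`: step. -/
def kd (e d p : ℕ) : ℕ :=
  ifz d 0 (ifz (p / 2 ^ (d - 1)) 1 (ifz (d - 1) 2 (ifz (p / 2 ^ (d - 2) % 2) 1
    (ifz (e + 2 - d) 4 3))))

/-- The argument of the left child of a node of kind `k` with the argument `x`. -/
def tb0 (m : Mach) (e k p x : ℕ) : ℕ :=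
  ifz k x (ifz (k - 1) x (ifz (k - 2) 0 (ifz (k - 3) x (m.A (st m x (p % 2 ^ e)) + 1))))

/-- The argument of the right child, if the left child returns `y`. -/
def tb1 (k y : ℕ) : ℕ := ifz k 0 (ifz (k - 1) 0 (ifz (k - 2) y (ifz (k - 3) y 0)))

/-- The result, if the children return `y` and `z`; `l = 0` for a leaf. -/
def tb2 (m : Mach) (e l k p x y z : ℕ) : ℕ :=
  ifz k (ifz l (ifz x m.q0 (m.M0 (x - 1))) (ifz x (st m z (2 ^ e)) (ct m z (x - 1) y (2 ^ e))))
    (ifz (k - 1) y (ifz (k - 2) z (ifz (k - 3) z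
      (x + 2 ^ (m.s + m.a * (p % 2 ^ e)) *
        ct m x (m.A (st m x (p % 2 ^ e))) y (p % 2 ^ e)))))

/-- The number of the levels above the node `v` in its part of the tree. -/
def dv (e v : ℕ) : ℕ := Nat.log 2 v % (e + 3)

/-- The path to the node `v` in its part of the tree. -/
def pv (e v : ℕ) : ℕ := v % 2 ^ dv e v

/-- The tables of a tree of height `N`. -/
def tb (m : Mach) (e N b mm v x y z : ℕ) : ℕ :=
  ifz mm (tb0 m e (kd e (dv e v) (pv e v)) (pv e v) x)
    (ifz (mm - 1) (tb1 (kd e (dv e v) (pv e v)) y)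
      (tb2 m e (N - Nat.log 2 v) (kd e (dv e v) (pv e v)) (pv e v) x y z)) % 2 ^ b

/-- The result of the nodes of height `j * (e + 3)`, `B = 2 ^ e`. -/
def RJ (m : Mach) (B j a : ℕ) : ℕ := ifz a (m.conf (j * B)).1 ((m.conf (j * B)).2 (a - 1))

/-- The code of the first `t` steps of the part `j`. -/
def ZD (m : Mach) (B j t : ℕ) : ℕ :=
  (m.conf (j * B)).1 + 2 ^ m.s * tab (2 ^ m.a) t fun r =>
    (m.conf (j * B + r)).2 (m.A (m.conf (j * B + r)).1)

/-! ### Goals -/

/-- KND (kinds). Only the definition of `kd`. In the last part `p = 3 * 2 ^ (d - 2) + r`,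
`r < 2 ^ (d - 2)`: `p / 2 ^ (d - 1) = 1`, `p / 2 ^ (d - 2) % 2 = 1`. -/
def GoalKND : Prop := ∀ e : ℕ, (∀ p, kd e 0 p = 0) ∧ kd e 1 0 = 1 ∧ kd e 1 1 = 2 ∧ kd e 2 2 = 1 ∧
  (∀ d p, 1 ≤ d → p < 2 ^ d → kd e d p = 1 → kd e (d + 1) (2 * p) = 1) ∧
  ∀ d p, 2 ≤ d → p / 2 ^ (d - 2) = 3 → kd e d p = if e + 2 ≤ d then 4 else 3

/-- DGS (digests). `tab_lt`, `dig_tab` (`Helper65/LinSpace/Arith2.lean`), `Z % 2 ^ s = (conf (j B)).1`
(`< 2 ^ s`), `Z / 2 ^ s = tab …`; all contents are smaller than `2 ^ a` (`Ok`). By induction on `t ≤ t'`: the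
value `vz m Z t` is the content which is read in the step `t` (for `t < t'`), so `st` and `ct` follow
`conf`. -/
def GoalDGS : Prop := ∀ (m : Mach), m.Ok → ∀ B j t' : ℕ, ZD m B j t' < 2 ^ (m.s + m.a * t') ∧
  ZD m B j 0 = (m.conf (j * B)).1 ∧
  (∀ t ≤ t', st m (ZD m B j t') t = (m.conf (j * B + t)).1 ∧
    ∀ x, ct m (ZD m B j t') x ((m.conf (j * B)).2 x) t = (m.conf (j * B + t)).2 x) ∧
  ZD m B j (t' + 1) = ZD m B j t' + 2 ^ (m.s + m.a * t') *
    (m.conf (j * B + t')).2 (m.A (m.conf (j * B + t')).1)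

/-- The bounds for the tree. -/
structure TOk (m : Mach) (e K b c : ℕ) : Prop where
  hm : m.Ok
  hK : 1 ≤ K
  hc : c ≤ b
  hν : m.ν < c
  hb : m.s + m.a * 2 ^ e ≤ b

/-- The nodes of height `j * (e + 3)` return the right values. -/
def Lev (m : Mach) (e K b c j : ℕ) : Prop := ∀ v, v ≠ 0 →
  Nat.log 2 v + j * (e + 3) = K * (e + 3) → ∀ a < 2 ^ c,
    ev (tb m e (K * (e + 3)) b) (e + 3) c (j * (e + 3)) v a = RJ m (2 ^ e) j a

/-- PSS (passing nodes). Let `v` have the height `j q + i`, `1 ≤ i ≤ e + 2`, `q = e + 3`, and kind `1`.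
Induction on `i`. `log₂ v + j q + i = K q`, so `dv e v = q - i ≥ 1`. The left child `2 v` has the argument
`tb0 = x` (`x < 2 ^ c ≤ 2 ^ b`), its height is `j q + (i - 1)`. If `i = 1` this is divisible by `q`, the
argument is cut (`x % 2 ^ c = x`), and `Lev` applies. Otherwise the height is not divisible by `q`
(`0 < i - 1 < q`), no cut, `2 v` has the kind `1` (KND; `log₂ (2 v) = log₂ v + 1`, `dv (2 v) = dv v + 1`,
`pv (2 v) = 2 pv v`), and the induction hypothesis applies. The result is `tb2 = y = RJ j x < 2 ^ b`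
(`2 ^ s, 2 ^ a ≤ 2 ^ b`; states and contents are bounded by `Ok`). -/
def GoalPSS : Prop := GoalKND → ∀ (m : Mach) (e K b c j : ℕ), TOk m e K b c → Lev m e K b c j →
  ∀ i, 1 ≤ i → i ≤ e + 2 → ∀ v, v ≠ 0 → Nat.log 2 v + (j * (e + 3) + i) = K * (e + 3) →
    kd e (dv e v) (pv e v) = 1 → ∀ x < 2 ^ c,
      ev (tb m e (K * (e + 3)) b) (e + 3) c (j * (e + 3) + i) v x = RJ m (2 ^ e) j x

/-- The conclusion of PSS. -/
def PassOK : Prop := ∀ (m : Mach) (e K b c j : ℕ), TOk m e K b c → Lev m e K b c j →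
  ∀ i, 1 ≤ i → i ≤ e + 2 → ∀ v, v ≠ 0 → Nat.log 2 v + (j * (e + 3) + i) = K * (e + 3) →
    kd e (dv e v) (pv e v) = 1 → ∀ x < 2 ^ c,
      ev (tb m e (K * (e + 3)) b) (e + 3) c (j * (e + 3) + i) v x = RJ m (2 ^ e) j x

/-- SQS (sequences and steps). Let `v` have the height `j q + i + 1`, `i ≤ e`, and a path which begins with
`11`: `d = dv e v = e + 2 - i`, `pv e v / 2 ^ (d - 2) = 3`; put `t = (pv e v % 2 ^ (d - 2)) * 2 ^ i`, so
`t + 2 ^ i ≤ 2 ^ e` (`pv % 2 ^ (e - i) < 2 ^ (e - i)`). Then with the argument `ZD t` the node returns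
`ZD (t + 2 ^ i)`. Induction on `i`. `i = 0`: kind `4` (KND), `pv % 2 ^ e = t`; the left child has the height
`j q`, the argument is `A (st (ZD t) t) + 1 ≤ 2 ^ ν < 2 ^ c` (not changed by the cuts), so by `Lev` it
returns `(conf (j B)).2 (A …)`, and DGS gives the result `ZD (t + 1)`, which is
smaller than `2 ^ (s + a (t + 1)) ≤ 2 ^ b`. `i + 1`: kind `3`; both children have kind by a path with
`11` (`pv (2 v) = 2 pv v`, `pv (2 v + 1) = 2 pv v + 1`, `t' = t`, `t' = t + 2 ^ i`), their height is not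
divisible by `q`; the left child gets `ZD t` and returns `ZD (t + 2 ^ i)`, the right child gets this and
returns `ZD (t + 2 ^ (i + 1))`. -/
def GoalSQS : Prop := GoalKND → GoalDGS → ∀ (m : Mach) (e K b c j : ℕ), TOk m e K b c →
  Lev m e K b c j → ∀ i ≤ e, ∀ v, v ≠ 0 →
    Nat.log 2 v + (j * (e + 3) + i + 1) = K * (e + 3) → pv e v / 2 ^ (e - i) = 3 →
    ev (tb m e (K * (e + 3)) b) (e + 3) c (j * (e + 3) + i + 1) v
        (ZD m (2 ^ e) j (pv e v % 2 ^ (e - i) * 2 ^ i)) =
      ZD m (2 ^ e) j (pv e v % 2 ^ (e - i) * 2 ^ i + 2 ^ i)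

/-- The conclusion of SQS. -/
def SeqOK : Prop := ∀ (m : Mach) (e K b c j : ℕ), TOk m e K b c →
  Lev m e K b c j → ∀ i ≤ e, ∀ v, v ≠ 0 →
    Nat.log 2 v + (j * (e + 3) + i + 1) = K * (e + 3) → pv e v / 2 ^ (e - i) = 3 →
    ev (tb m e (K * (e + 3)) b) (e + 3) c (j * (e + 3) + i + 1) v
        (ZD m (2 ^ e) j (pv e v % 2 ^ (e - i) * 2 ^ i)) =
      ZD m (2 ^ e) j (pv e v % 2 ^ (e - i) * 2 ^ i + 2 ^ i)

/-- TRE (the tree). First part by induction on `j ≤ K`. `j = 0`: a leaf, `ev 0 v a = tb 2 v a 0 0`, `dv = 0`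
(`log₂ v = K q`), kind `0`, `N - log₂ v = 0`. Step `j → j + 1 ≤ K`: `v` has `dv = 0`, kind `0`,
`N - log₂ v > 0`. The left child `2 v` (height `j q + (e + 2)`, `dv = 1`, `pv = 0`, kind `1`) gets `a` and
returns `RJ j a` (PSS; no cut). The right child `2 v + 1` (`dv = 1`, `pv = 1`, kind `2`) gets `0`; its left
child `4 v + 2` (`dv = 2`, `pv = 2`, kind `1`, height `j q + (e + 1)`) gets `0` and returns
`RJ j 0 = ZD 0` (PSS), its right child `4 v + 3` (`dv = 2`, `pv = 3`) gets this and returns `ZD (2 ^ e)` (SQS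
with `i = e`), which is the result of `2 v + 1`. The result of `v` is `st (ZD (2 ^ e)) (2 ^ e)` for `a = 0`, and
`ct (ZD (2 ^ e)) (a - 1) (RJ j a) (2 ^ e)` otherwise: DGS, `(j + 1) 2 ^ e = j 2 ^ e + 2 ^ e`. No argument is cut
or changed by `% 2 ^ b`, as all are `< 2 ^ c` resp. `< 2 ^ b`. The second part is `j = K`, `v = 1`, `a = 0`. -/
def GoalTRE : Prop := GoalKND → GoalDGS → PassOK → SeqOK →
  (∀ (m : Mach) (e K b c : ℕ), TOk m e K b c → ∀ j ≤ K, Lev m e K b c j) ∧
  ∀ (m : Mach) (e K b c : ℕ), TOk m e K b c →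
    ev (tb m e (K * (e + 3)) b) (e + 3) c (K * (e + 3)) 1 0 = (m.conf (K * 2 ^ e)).1

end Pool.Agent.Helper53.UR
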